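import Pool.Agent.W960.HQ.Parts

/-! Points of an interval away from finitely many bad directions; K1 on short intervals. -/

open Real Set MeasureTheory Topology Filter
open scoped ENNReal

namespace Pool.Agent.W960.HQ

open Pool.Agent.H709R2 (rot wedge field ClosedOrbit)
open Pool.Agent.H709U

lemma ee_add (x y : ℝ) : ee (x + y) = ee x * ee y := by
  unfold ee
  rw [← Complex.exp_add]
  congr 1
  push_cast
  ring

/-- a point of a short interval away from all bad directions -/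
lemma exists_avoid (R : Finset ℂ) {d ρ : ℝ} (hd : 0 < d) (hρ : ρ ≤ π)
    (h : (R.card : ℝ) * (10 * d) < ρ) (t₁ : ℝ) :
    ∃ t ∈ Ioo t₁ (t₁ + ρ), ∀ a ∈ R, d ≤ ‖ee t - a‖ := by
  classical
  by_contra hcon
  push Not at hcon
  have hsub : Ioo 0 ρ ⊆ ⋃ a ∈ R, {α | α ∈ Ioo 0 π ∧ ‖ee α - a * (ee t₁)⁻¹‖ < 2 * (d / 2)} := by
    intro x hx
    obtain ⟨a, ha, hlt⟩ := hcon (t₁ + x) ⟨by linarith [hx.1], by linarith [hx.2]⟩
    simp only [mem_iUnion]
    refine ⟨a, ha, ⟨hx.1, hx.2.trans_le hρ⟩, ?_⟩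
    have h1 : ‖ee t₁‖ = 1 := E2.norm_ee t₁
    have h2 : ee t₁ ≠ 0 := by
      intro h0
      rw [h0, norm_zero] at h1
      norm_num at h1
    have h3 : ee x - a * (ee t₁)⁻¹ = (ee t₁)⁻¹ * (ee (t₁ + x) - a) := by
      rw [ee_add]
      field_simp
    rw [h3, norm_mul, norm_inv, h1, inv_one, one_mul]
    linarith
  have h1 := measure_mono (μ := (volume : Measure ℝ)) hsub
  have h2 := h1.trans (measure_biUnion_finset_le _ _)
  have h3 := h2.trans (Finset.sum_le_sum fun a _ => e2b (a * (ee t₁)⁻¹) (d / 2) (by positivity))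
  rw [Real.volume_Ioo, Finset.sum_const, nsmul_eq_mul, ← ENNReal.ofReal_natCast,
    ← ENNReal.ofReal_mul (Nat.cast_nonneg _), sub_zero,
    ENNReal.ofReal_le_ofReal_iff (by positivity)] at h3
  linarith

/-- propagation of steep level curves over a short range of angles -/
lemma k1_short (F Fu Ft : ℝ × ℝ → ℝ) (b u₁ t₁ ρ : ℝ) (hb : 0 < b) (hρ : 0 < ρ)
    (hF : ∀ q, HasFDerivAt F (Fu q • ContinuousLinearMap.fst ℝ ℝ ℝ +
      Ft q • ContinuousLinearMap.snd ℝ ℝ ℝ) q) (hFu : Continuous Fu) (hFt : Continuous Ft)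
    (h0 : F (u₁, t₁) = 0) (h1 : b ^ 2 * Ft (u₁, t₁) ^ 2 < Fu (u₁, t₁) ^ 2)
    (hne : ∀ u t, |u - u₁| ≤ ρ / b → t ∈ Icc t₁ (t₁ + ρ) → F (u, t) = 0 →
      Fu (u, t) ^ 2 ≠ b ^ 2 * Ft (u, t) ^ 2) :
    ∀ t ∈ Icc t₁ (t₁ + ρ), ∃ u, |u - u₁| ≤ ρ / b ∧ F (u, t) = 0 := by
  have hπ := Real.pi_pos
  set κ : ℝ := ρ / π with hκ
  have hκ0 : 0 < κ := by positivity
  have hκπ : κ * π = ρ := by rw [hκ]; field_simp
  set φ : ℝ × ℝ → ℝ × ℝ := fun q => (q.1, t₁ + κ * (q.2 - t₁)) with hφ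
  have hφd : ∀ q, HasFDerivAt φ ((ContinuousLinearMap.fst ℝ ℝ ℝ).prod
      (κ • ContinuousLinearMap.snd ℝ ℝ ℝ)) q := by
    intro q
    refine hasFDerivAt_fst.prodMk ?_
    refine ((hasFDerivAt_snd.sub_const t₁).const_mul κ).const_add t₁
  have hφc : Continuous φ := by
    rw [hφ]
    fun_prop
  have hb' : 0 < b / κ := by positivity
  have hpb : π / (b / κ) = ρ / b := by rw [← hκπ]; field_simp
  have key := k1 (fun q => F (φ q)) (fun q => Fu (φ q)) (fun q => κ * Ft (φ q)) (b / κ) u₁ t₁ hb'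
    (by
      intro q
      refine ((hF (φ q)).comp q (hφd q)).congr_fderiv ?_
      ext <;> simp [mul_comm])
    (hFu.comp hφc) (continuous_const.mul (hFt.comp hφc))
    (by simp only [hφ, sub_self, mul_zero, add_zero]; exact h0)
    (by
      simp only [hφ, sub_self, mul_zero, add_zero]
      have : (b / κ) ^ 2 * (κ * Ft (u₁, t₁)) ^ 2 = b ^ 2 * Ft (u₁, t₁) ^ 2 := by
        field_simp
      rw [this]
      exact h1)
    (by
      intro u t hu ht hFz
      simp only [hφ] at hFz ⊢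
      have : (b / κ) ^ 2 * (κ * Ft (u, t₁ + κ * (t - t₁))) ^ 2 =
          b ^ 2 * Ft (u, t₁ + κ * (t - t₁)) ^ 2 := by
        field_simp
      rw [this]
      refine hne u _ (by rw [← hpb]; exact hu) ⟨?_, ?_⟩ hFz
      · nlinarith [ht.1]
      · nlinarith [ht.2])
  intro t ht
  obtain ⟨u, hu, hFz⟩ := key (t₁ + (t - t₁) / κ) ⟨by
      have : 0 ≤ (t - t₁) / κ := div_nonneg (by linarith [ht.1]) hκ0.le
      linarith, by
      have : (t - t₁) / κ ≤ π := by
        rw [div_le_iff₀ hκ0, mul_comm, hκπ]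
        linarith [ht.2]
      linarith⟩
  refine ⟨u, by rw [← hpb]; exact hu, ?_⟩
  simp only [hφ] at hFz
  rw [show t₁ + κ * (t₁ + (t - t₁) / κ - t₁) = t by field_simp; ring] at hFz
  exact hFz

end Pool.Agent.W960.HQ
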