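import Pool.Agent.W960.HQ.Graph

/-! Comparison of two star-shaped closed orbits in a zone dominated by one homogeneous part. -/

open Real Set MeasureTheory Topology Filter intervalIntegral
open scoped ENNReal

namespace Pool.Agent.W960.HQ

open Pool.Agent.H709R2 (rot wedge field ClosedOrbit)
open Pool.Agent.H709U

lemma ee_add_pi (x : ℝ) : ee (x + π) = ee x := by
  unfold ee
  rw [show 2 * ((x + π : ℝ) : ℂ) * Complex.I = 2 * x * Complex.I + 2 * π * Complex.I by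
    push_cast; ring]
  exact Complex.exp_periodic _

lemma continuous_ee : Continuous ee := by
  unfold ee
  fun_prop

/-- the bad angles -/
def bad (R : Finset ℂ) (d : ℝ) : Set ℝ := {θ | ∃ a ∈ R, ‖ee θ - a‖ < d}

lemma measurable_bad (R : Finset ℂ) (d : ℝ) : MeasurableSet (bad R d) := by
  have : bad R d = ⋃ a ∈ R, {θ | ‖ee θ - a‖ < d} := by
    ext θ
    simp [bad]
  rw [this]
  refine Finset.measurableSet_biUnion _ fun a _ => ?_
  exact measurableSet_lt ((continuous_ee.sub continuous_const).norm.measurable) measurable_const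

lemma integral_bad (R : Finset ℂ) {d : ℝ} (hd : 0 < d) (M : ℕ) :
    ∫ θ in (0:ℝ)..(2 * π * M), (bad R d).indicator (fun _ => (1:ℝ)) θ ≤
      2 * M * (R.card * (10 * d)) := by
  classical
  set b : ℝ → ℝ := (bad R d).indicator (fun _ => (1:ℝ)) with hb
  have hper : Function.Periodic b π := by
    intro x
    have h : x + π ∈ bad R d ↔ x ∈ bad R d := by
      unfold bad
      simp only [mem_ofPred_eq, ee_add_pi]
    by_cases hx : x ∈ bad R d
    · simp only [hb, indicator_of_mem hx, indicator_of_mem (h.2 hx)]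
    · simp only [hb, indicator_of_notMem hx, indicator_of_notMem (fun h' => hx (h.1 h'))]
  have hb01 : ∀ x, ‖b x‖ ≤ 1 := by
    intro x
    simp only [hb, indicator]
    split_ifs <;> simp
  have hbm : Measurable b := measurable_const.indicator (measurable_bad R d)
  have hint : ∀ t₁ t₂, IntervalIntegrable b volume t₁ t₂ := by
    intro t₁ t₂
    rw [intervalIntegrable_iff]
    refine Measure.integrableOn_of_bounded (M := 1) ?_ hbm.aestronglyMeasurable
      (Eventually.of_forall hb01)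
    rw [uIoc, Real.volume_Ioc]
    exact ENNReal.ofReal_ne_top
  have h1 := hper.intervalIntegral_add_zsmul_eq (2 * M : ℤ) 0 hint
  have h2 : (0:ℝ) + ((2 * M : ℤ)) • π = 2 * π * M := by
    rw [zsmul_eq_mul]
    push_cast
    ring
  rw [h2, zero_add] at h1
  rw [h1, zsmul_eq_mul]
  push_cast
  refine mul_le_mul_of_nonneg_left ?_ (by positivity)
  rw [intervalIntegral.integral_of_le Real.pi_pos.le]
  have h3 : ∫ x in Ioc 0 π, b x = ∫ x in Ioo 0 π, b x := integral_Ioc_eq_integral_Ioo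
  rw [h3, hb, MeasureTheory.integral_indicator (measurable_bad R d), setIntegral_const, smul_eq_mul, mul_one,
    Measure.real, Measure.restrict_apply (measurable_bad R d)]
  refine ENNReal.toReal_le_of_le_ofReal (by positivity) ?_
  have hsub : bad R d ∩ Ioo 0 π ⊆ ⋃ a ∈ R, {α | α ∈ Ioo 0 π ∧ ‖ee α - a‖ < 2 * (d / 2)} := by
    rintro x ⟨⟨a, ha, hx⟩, hx2⟩
    simp only [mem_iUnion]
    exact ⟨a, ha, hx2, by linarith⟩
  refine (measure_mono hsub).trans ((measure_biUnion_finset_le _ _).trans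
    ((Finset.sum_le_sum fun a _ => e2b a (d / 2) (by positivity)).trans ?_))
  rw [Finset.sum_const, nsmul_eq_mul, ← ENNReal.ofReal_natCast,
    ← ENNReal.ofReal_mul (Nat.cast_nonneg _)]
  refine ENNReal.ofReal_le_ofReal (le_of_eq ?_)
  ring

namespace Parts

variable {n : ℕ} {P Q : MvPolynomial (Fin 2) ℝ} {p : ℝ × ℝ} (D : Parts n P Q p)

lemma h_rot (k : ℕ) (α θ : ℝ) : D.h k α θ = cos α * D.h k 0 θ - sin α * D.g k 0 θ := by
  unfold g h
  rw [cos_zero, sin_zero]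
  ring

/-- lower bound for a part at good angles -/
lemma exists_low (k : ℕ) (hm : 0 < D.m k) : ∃ R : Finset ℂ, R.card ≤ k ∧ ∀ d : ℝ, 0 < d → d ≤ 1 →
    ∀ θ, θ ∉ bad R d → (d / 3) ^ k * (D.m k / 2) ≤ √(D.q k θ) := by
  have hsq := D.m_sq k
  obtain ⟨c, hc1, hc2⟩ : ∃ c : Fin (k + 1) → ℝ, D.m k / 2 ≤ |form c (D.tm k)| ∧
      ∀ θ, form c θ ^ 2 ≤ D.q k θ := by
    by_cases h : D.m k / 2 ≤ |form (D.a k) (D.tm k)|
    · exact ⟨D.a k, h, fun θ => by unfold q; nlinarith [sq_nonneg (form (D.b k) θ)]⟩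
    · refine ⟨D.b k, ?_, fun θ => by unfold q; nlinarith [sq_nonneg (form (D.a k) θ)]⟩
      push Not at h
      unfold q at hsq
      have h1 : form (D.a k) (D.tm k) ^ 2 ≤ (D.m k / 2) ^ 2 := by
        rw [← sq_abs (form (D.a k) (D.tm k))]
        exact pow_le_pow_left₀ (abs_nonneg _) h.le 2
      have h2 : (D.m k / 2) ^ 2 ≤ form (D.b k) (D.tm k) ^ 2 := by nlinarith
      rw [← sq_abs (form (D.b k) (D.tm k))] at h2
      exact (pow_le_pow_iff_left₀ (by positivity) (abs_nonneg _) (by norm_num)).1 h2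
  have hc0 : c ≠ 0 := by
    rintro rfl
    simp [form] at hc1
    linarith
  obtain ⟨R, hR, M, hM, hle, hlow⟩ := e2 k c hc0
  refine ⟨R, hR, fun d hd hd1 θ hθ => ?_⟩
  have h1 := hlow d hd hd1 θ (fun a ha => by
    by_contra hcon
    exact hθ ⟨a, ha, not_le.1 hcon⟩)
  have h2 : D.m k / 2 ≤ M := hc1.trans (hle _)
  calc (d / 3) ^ k * (D.m k / 2) ≤ (d / 3) ^ k * M :=
        mul_le_mul_of_nonneg_left h2 (by positivity)
    _ ≤ |form c θ| := h1
    _ ≤ √(D.q k θ) := Real.abs_le_sqrt (hc2 θ)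

end Parts

/-- the algebra of the comparison -/
lemma comp_alg {q w S e δ h1 g1 h2 g2 f1 e1 f2 e2 : ℝ} (hw : 0 < w) (hq : q = w ^ 2)
    (hδ : 0 < δ) (hδ1 : δ ≤ 1) (hS : δ / 2 ≤ S) (he0 : 0 ≤ e) (he : e ≤ δ / 100 * w)
    (hq1 : g1 ^ 2 + h1 ^ 2 = q) (hq2 : g2 ^ 2 + h2 ^ 2 = q)
    (hf1 : |f1| ≤ e) (he1 : |e1| ≤ e) (hf2 : |f2| ≤ e) (he2 : |e2| ≤ e)
    (hmain : h1 * g2 - h2 * g1 = q * S) (hpos : 0 < (g1 + e1) * (g2 + e2)) :
    δ / 8 ≤ (h1 + f1) / (g1 + e1) - (h2 + f2) / (g2 + e2) := by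
  have hg1 : |g1| ≤ w := abs_le_of_sq_le_sq (by nlinarith [sq_nonneg h1]) hw.le
  have hh1 : |h1| ≤ w := abs_le_of_sq_le_sq (by nlinarith [sq_nonneg g1]) hw.le
  have hg2 : |g2| ≤ w := abs_le_of_sq_le_sq (by nlinarith [sq_nonneg h2]) hw.le
  have hh2 : |h2| ≤ w := abs_le_of_sq_le_sq (by nlinarith [sq_nonneg g2]) hw.le
  have hne1 : g1 + e1 ≠ 0 := fun h => by rw [h] at hpos; linarith
  have hne2 : g2 + e2 ≠ 0 := fun h => by rw [h] at hpos; linarith
  rw [div_sub_div _ _ hne1 hne2, le_div_iff₀ hpos]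
  have hup : (g1 + e1) * (g2 + e2) ≤ (w + e) ^ 2 := by
    have h3 : |g1 + e1| ≤ w + e := (abs_add_le _ _).trans (add_le_add hg1 he1)
    have h4 : |g2 + e2| ≤ w + e := (abs_add_le _ _).trans (add_le_add hg2 he2)
    calc (g1 + e1) * (g2 + e2) ≤ |(g1 + e1) * (g2 + e2)| := le_abs_self _
      _ = |g1 + e1| * |g2 + e2| := abs_mul _ _
      _ ≤ (w + e) * (w + e) := mul_le_mul h3 h4 (abs_nonneg _) (by linarith)
      _ = (w + e) ^ 2 := by ring
  have herr : |h1 * e2 + f1 * g2 + f1 * e2 - h2 * e1 - f2 * g1 - f2 * e1| ≤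
      4 * w * e + 2 * e ^ 2 := by
    have b : ∀ {x y X Y : ℝ}, |x| ≤ X → |y| ≤ Y → 0 ≤ X → |x * y| ≤ X * Y := by
      intro x y X Y hx hy hX
      rw [abs_mul]
      exact mul_le_mul hx hy (abs_nonneg _) hX
    have t1 := abs_le.1 (b hh1 he2 hw.le)
    have t2 := abs_le.1 (b hf1 hg2 he0)
    have t3 := abs_le.1 (b hf1 he2 he0)
    have t4 := abs_le.1 (b hh2 he1 hw.le)
    have t5 := abs_le.1 (b hf2 hg1 he0)
    have t6 := abs_le.1 (b hf2 he1 he0)
    rw [abs_le]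
    constructor <;> linarith
  have hexp : (h1 + f1) * (g2 + e2) - (g1 + e1) * (h2 + f2) = q * S +
      (h1 * e2 + f1 * g2 + f1 * e2 - h2 * e1 - f2 * g1 - f2 * e1) := by
    rw [← hmain]
    ring
  rw [hexp]
  have h5 := (abs_le.1 herr).1
  have h6 : q * (δ / 2) ≤ q * S := mul_le_mul_of_nonneg_left hS (by rw [hq]; positivity)
  have h7 : δ / 8 * ((g1 + e1) * (g2 + e2)) ≤ δ / 8 * (w + e) ^ 2 :=
    mul_le_mul_of_nonneg_left hup (by positivity)
  have h8 : δ / 8 * (w + e) ^ 2 + (4 * w * e + 2 * e ^ 2) ≤ q * (δ / 2) := by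
    have he' : e ≤ w / 100 := by nlinarith
    have a1 : (w + e) ^ 2 ≤ (101 / 100 * w) ^ 2 := by
      apply pow_le_pow_left₀ (by positivity)
      linarith
    have a2 : 4 * w * e ≤ 4 * w * (δ / 100 * w) := mul_le_mul_of_nonneg_left he (by positivity)
    have a3 : e ^ 2 ≤ (δ / 100 * w) * (w / 100) := by
      rw [sq]
      exact mul_le_mul he he' he0 (by positivity)
    have a4 : δ / 8 * (w + e) ^ 2 ≤ δ / 8 * (101 / 100 * w) ^ 2 :=
      mul_le_mul_of_nonneg_left a1 (by positivity)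
    have b1 : δ / 8 * (101 / 100 * w) ^ 2 = 10201 / 80000 * (δ * w ^ 2) := by ring
    have b2 : 4 * w * (δ / 100 * w) = 4 / 100 * (δ * w ^ 2) := by ring
    have b3 : (δ / 100 * w) * (w / 100) = 1 / 10000 * (δ * w ^ 2) := by ring
    have b4 : w ^ 2 * (δ / 2) = 1 / 2 * (δ * w ^ 2) := by ring
    have b5 : 0 < δ * w ^ 2 := by positivity
    rw [hq, b4]
    rw [b1] at a4
    rw [b2] at a2
    rw [b3] at a3
    linarith
  linarith

lemma continuous_VW {X : ℝ × ℝ → ℝ × ℝ} (hX : Continuous X) (p : ℝ × ℝ) (α : ℝ) :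
    Continuous (V X p α) ∧ Continuous (W X p α) := by
  unfold V W wedge H709U.dot rot
  constructor <;> fun_prop

lemma ratio_le {δ v w : ℝ} (hδ : 0 < δ) (h : (δ / 2) ^ 2 * w ^ 2 < v ^ 2) : |w / v| ≤ 2 / δ := by
  have hv : v ≠ 0 := by
    rintro rfl
    nlinarith [sq_nonneg (δ / 2 * w)]
  have hv2 : 0 < v ^ 2 := by positivity
  apply abs_le_of_sq_le_sq _ (by positivity)
  rw [div_pow, div_le_iff₀ hv2]
  have h1 : (2 / δ) ^ 2 * v ^ 2 = (v ^ 2) * (4 / δ ^ 2) := by ring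
  have h2 : w ^ 2 = ((δ / 2) ^ 2 * w ^ 2) * (4 / δ ^ 2) := by
    have := hδ.ne'
    field_simp
    try ring
  rw [h1]
  calc w ^ 2 = ((δ / 2) ^ 2 * w ^ 2) * (4 / δ ^ 2) := h2
    _ ≤ (v ^ 2) * (4 / δ ^ 2) := mul_le_mul_of_nonneg_right h.le (by positivity)

/-- **comparison** -/
theorem compare {n : ℕ} {P Q : MvPolynomial (Fin 2) ℝ} {p : ℝ × ℝ} (D : Parts n P Q p) {k : ℕ}
    (hk : k ∈ Finset.range (n + 1)) (hm : 0 < D.m k) {δ : ℝ} (hδ : 0 < δ) (hδ1 : δ ≤ 1)
    {α₁ α₂ : ℝ} (hα : δ ≤ α₂ - α₁) (hα' : α₂ - α₁ ≤ π - δ) {C₁ C₂ : Set (ℝ × ℝ)}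
    (hC₁ : ClosedOrbit (rf (field P Q) α₁) C₁) (hC₂ : ClosedOrbit (rf (field P Q) α₂) C₂)
    (hd₁ : ∀ z ∈ C₁, D.Dom (sn n δ) k (lg p z)) (hd₂ : ∀ z ∈ C₂, D.Dom (sn n δ) k (lg p z))
    (hs₁ : ∀ z ∈ C₁, (δ / 2) ^ 2 * W (field P Q) p α₁ z ^ 2 < V (field P Q) p α₁ z ^ 2)
    (hs₂ : ∀ z ∈ C₂, (δ / 2) ^ 2 * W (field P Q) p α₂ z ^ 2 < V (field P Q) p α₂ z ^ 2)
    {σ : ℝ} (hV₁ : ∀ z ∈ C₁, 0 < σ * V (field P Q) p α₁ z)
    (hV₂ : ∀ z ∈ C₂, 0 < σ * V (field P Q) p α₂ z) : False := by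
  have hX2 : ContDiff ℝ 2 (field P Q) := H709R2.contDiff_field P Q
  have hXc : Continuous (field P Q) := hX2.continuous
  obtain ⟨γ₁, T₁, hO₁, hr₁⟩ := m0 (field P Q) hX2 α₁ C₁ hC₁
  obtain ⟨γ₂, T₂, hO₂, hr₂⟩ := m0 (field P Q) hX2 α₂ C₂ hC₂
  have hne₁ : ∀ t, V (field P Q) p α₁ (γ₁ t) ≠ 0 := fun t h => by
    have := hV₁ (γ₁ t) (by rw [hr₁]; exact ⟨t, rfl⟩)
    rw [h, mul_zero] at this
    exact lt_irrefl _ this
  have hne₂ : ∀ t, V (field P Q) p α₂ (γ₂ t) ≠ 0 := fun t h => by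
    have := hV₂ (γ₂ t) (by rw [hr₂]; exact ⟨t, rfl⟩)
    rw [h, mul_zero] at this
    exact lt_irrefl _ this
  obtain ⟨u₁, m₁, hm₁, hu₁, hd1, hp1⟩ := exists_graph hXc hO₁ hne₁
  obtain ⟨u₂, m₂, hm₂, hu₂, hd2, hp2⟩ := exists_graph hXc hO₂ hne₂
  rw [← hr₁] at hu₁
  rw [← hr₂] at hu₂
  set M := m₁ * m₂ with hM
  have hM1 : 1 ≤ M := Nat.mul_pos hm₁ hm₂
  have hperN : ∀ (u : ℝ → ℝ) (m : ℕ), (∀ θ, u (θ + 2 * π * m) = u θ) → ∀ j : ℕ, ∀ θ,
      u (θ + 2 * π * (m * j : ℕ)) = u θ := by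
    intro u m hu j
    induction j with
    | zero => intro θ; simp
    | succ j ih =>
      intro θ
      have : θ + 2 * π * ((m * (j + 1) : ℕ) : ℝ) = (θ + 2 * π * (m * j : ℕ)) + 2 * π * m := by
        push_cast
        ring
      rw [this, hu, ih]
  have hP1 : ∀ θ, u₁ (θ + 2 * π * M) = u₁ θ := hperN u₁ m₁ hp1 m₂
  have hP2 : ∀ θ, u₂ (θ + 2 * π * M) = u₂ θ := by
    have := hperN u₂ m₂ hp2 m₁
    rwa [mul_comm m₂ m₁] at this
  set F : ℝ → ℝ := fun θ => W (field P Q) p α₁ (pt p (u₁ θ) θ) / V (field P Q) p α₁ (pt p (u₁ θ) θ) -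
    W (field P Q) p α₂ (pt p (u₂ θ) θ) / V (field P Q) p α₂ (pt p (u₂ θ) θ) with hF
  have hFd : ∀ θ, HasDerivAt (fun θ => u₁ θ - u₂ θ) (F θ) θ := fun θ => (hd1 θ).sub (hd2 θ)
  have hptc : ∀ (u : ℝ → ℝ), Continuous u → Continuous fun θ => pt p (u θ) θ := by
    intro u hu
    unfold pt
    fun_prop
  have hu1c : Continuous u₁ := continuous_iff_continuousAt.mpr fun θ => (hd1 θ).continuousAt
  have hu2c : Continuous u₂ := continuous_iff_continuousAt.mpr fun θ => (hd2 θ).continuousAt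
  have hVWc : ∀ α, Continuous (V (field P Q) p α) ∧ Continuous (W (field P Q) p α) := fun α =>
    continuous_VW hXc p α
  have hFc : Continuous F := by
    refine Continuous.sub ?_ ?_
    · exact ((hVWc α₁).2.comp (hptc u₁ hu1c)).div ((hVWc α₁).1.comp (hptc u₁ hu1c)) fun θ h => by
        have := hV₁ _ (hu₁ θ)
        have h' : V (field P Q) p α₁ (pt p (u₁ θ) θ) = 0 := h
        rw [h', mul_zero] at this
        exact lt_irrefl _ this
    · exact ((hVWc α₂).2.comp (hptc u₂ hu2c)).div ((hVWc α₂).1.comp (hptc u₂ hu2c)) fun θ h => by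
        have := hV₂ _ (hu₂ θ)
        have h' : V (field P Q) p α₂ (pt p (u₂ θ) θ) = 0 := h
        rw [h', mul_zero] at this
        exact lt_irrefl _ this
  have hint0 : ∫ θ in (0:ℝ)..(2 * π * M), F θ = 0 := by
    rw [integral_eq_sub_of_hasDerivAt (fun θ _ => hFd θ) (hFc.intervalIntegrable _ _)]
    have a1 := hP1 0
    have a2 := hP2 0
    rw [zero_add] at a1 a2
    rw [a1, a2]
    ring
  -- the good and the bad angles
  obtain ⟨R, hR, hlow⟩ := D.exists_low k hm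
  set d : ℝ := δ ^ 2 / (200 * (n + 1)) with hd
  have hn0 : (0:ℝ) ≤ n := Nat.cast_nonneg n
  have hd0 : 0 < d := by positivity
  have hd3 : d / 3 = yy n δ := by
    rw [hd]
    unfold yy
    field_simp
    norm_num
  have hyp := yy_pos (n := n) hδ
  have hy1 := yy_lt_one (n := n) hδ hδ1
  have hdle1 : d ≤ 1 := by linarith
  have hkn : k ≤ n := by have := Finset.mem_range.1 hk; omega
  have hx : (0:ℝ) < δ / 2 := by positivity
  have hS : δ / 2 ≤ sin (α₂ - α₁) := by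
    have hpi := Real.pi_gt_three
    have hδs : δ / 2 ≤ sin δ := by
      have := Real.mul_le_sin hδ.le (by linarith)
      have h2 : δ / 2 ≤ 2 / π * δ := by
        rw [div_mul_eq_mul_div, le_div_iff₀ Real.pi_pos]
        nlinarith [Real.pi_lt_four]
      linarith
    rcases le_total (α₂ - α₁) (π / 2) with h | h
    · exact hδs.trans (Real.sin_le_sin_of_le_of_le_pi_div_two (by linarith) h hα)
    · rw [← Real.sin_pi_sub]
      exact hδs.trans (Real.sin_le_sin_of_le_of_le_pi_div_two (by linarith) (by linarith)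
        (by linarith))
  have hgood : ∀ θ, θ ∉ bad R d → δ / 8 ≤ F θ := by
    intro θ hθ
    have h1 := hlow d hd0 hdle1 θ hθ
    rw [hd3] at h1
    set w := √(D.q k θ) with hw
    have hw0 : 0 < w := lt_of_lt_of_le (by positivity) h1
    set e : ℝ := n * exp (-sn n δ) * D.m k with he
    have he0 : 0 ≤ e := by positivity
    have hew : e ≤ δ / 100 * w := by
      have a1 : yy n δ ^ n ≤ yy n δ ^ k := pow_le_pow_of_le_one hyp.le (by linarith) hkn
      have a2 : (n : ℝ) * yy n δ ^ 2 ≤ δ / 200 := by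
        have b1 : (n : ℝ) * yy n δ ≤ δ / 600 := by
          refine (mul_le_mul_of_nonneg_left (yy_le hδ hδ1) hn0).trans ?_
          rw [mul_div_assoc', div_le_div_iff₀ (by positivity) (by norm_num)]
          nlinarith
        have : (n : ℝ) * yy n δ ^ 2 = (n * yy n δ) * yy n δ := by ring
        rw [this]
        nlinarith
      rw [he, exp_sn hδ, pow_add]
      calc (n : ℝ) * (yy n δ ^ n * yy n δ ^ 2) * D.m k
          = (n * yy n δ ^ 2) * (yy n δ ^ n * D.m k) := by ring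
        _ ≤ (δ / 200) * (yy n δ ^ k * D.m k) :=
            mul_le_mul a2 (mul_le_mul_of_nonneg_right a1 hm.le) (by positivity) (by positivity)
        _ = δ / 100 * (yy n δ ^ k * (D.m k / 2)) := by ring
        _ ≤ δ / 100 * w := mul_le_mul_of_nonneg_left h1 (by positivity)
    -- the components
    have key : ∀ (α : ℝ) (u : ℝ), D.Dom (sn n δ) k u → ∃ r e' f' : ℝ, 0 < r ∧ |e'| ≤ e ∧ |f'| ≤ e ∧
        V (field P Q) p α (pt p u θ) = r * (D.g k α θ + e') ∧
        W (field P Q) p α (pt p u θ) = r * (D.h k α θ + f') := by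
      intro α u hdom
      have hv := D.V_near hk hdom α θ
      have hw' := D.W_near hk hdom α θ
      set r := exp u * exp u ^ k with hr
      have hr0 : 0 < r := by positivity
      refine ⟨r, V (field P Q) p α (pt p u θ) / r - D.g k α θ,
        W (field P Q) p α (pt p u θ) / r - D.h k α θ, hr0, ?_, ?_, ?_, ?_⟩
      · have : V (field P Q) p α (pt p u θ) / r - D.g k α θ =
          (V (field P Q) p α (pt p u θ) - r * D.g k α θ) / r := by field_simp
        rw [this, abs_div, abs_of_pos hr0, div_le_iff₀ hr0, mul_comm e]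
        exact hv
      · have : W (field P Q) p α (pt p u θ) / r - D.h k α θ =
          (W (field P Q) p α (pt p u θ) - r * D.h k α θ) / r := by field_simp
        rw [this, abs_div, abs_of_pos hr0, div_le_iff₀ hr0, mul_comm e]
        exact hw'
      · field_simp
        ring
      · field_simp
        ring
    have hD1 := hd₁ _ (hu₁ θ)
    have hD2 := hd₂ _ (hu₂ θ)
    rw [lg_pt] at hD1 hD2
    obtain ⟨r₁, e₁, f₁, hr1, hea, hfa, hva, hwa⟩ := key α₁ _ hD1
    obtain ⟨r₂, e₂, f₂, hr2, heb, hfb, hvb, hwb⟩ := key α₂ _ hD2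
    have hp1 := hV₁ _ (hu₁ θ)
    have hp2 := hV₂ _ (hu₂ θ)
    simp only [hF]
    rw [hva] at hp1 ⊢
    rw [hvb] at hp2 ⊢
    rw [hwa, hwb, mul_div_mul_left _ _ hr1.ne', mul_div_mul_left _ _ hr2.ne']
    refine comp_alg (S := sin (α₂ - α₁)) hw0 (Real.sq_sqrt (D.q_nonneg k θ)).symm hδ hδ1 hS he0 hew
      (D.g_sq_add k α₁ θ) (D.g_sq_add k α₂ θ) hfa hea hfb heb ?_ ?_
    · rw [D.g_rot k α₁, D.g_rot k α₂, D.h_rot k α₁, D.h_rot k α₂, ← D.g_sq_add k 0 θ, sin_sub]
      ring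
    · have h3 : 0 < (σ * (r₁ * (D.g k α₁ θ + e₁))) * (σ * (r₂ * (D.g k α₂ θ + e₂))) :=
        mul_pos hp1 hp2
      have h4 : (σ * (r₁ * (D.g k α₁ θ + e₁))) * (σ * (r₂ * (D.g k α₂ θ + e₂))) =
          (σ ^ 2 * (r₁ * r₂)) * ((D.g k α₁ θ + e₁) * (D.g k α₂ θ + e₂)) := by ring
      rw [h4] at h3
      exact (pos_iff_pos_of_mul_pos h3).1 (lt_of_le_of_ne (by positivity) (fun h => by
        rw [← h, zero_mul] at h3
        exact lt_irrefl _ h3))
  have hbad : ∀ θ, -(4 / δ) ≤ F θ := by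
    intro θ
    have h1 := hs₁ _ (hu₁ θ)
    have h2 := hs₂ _ (hu₂ θ)
    have h3 := abs_le.1 (ratio_le hδ h1)
    have h4 := abs_le.1 (ratio_le hδ h2)
    have h5 : 4 / δ = 2 / δ + 2 / δ := by ring
    simp only [hF]
    linarith [h3.1, h4.2]
  -- integrate
  set b : ℝ → ℝ := (bad R d).indicator (fun _ => (1:ℝ)) with hb
  have hlowF : ∀ θ, δ / 8 - (δ / 8 + 4 / δ) * b θ ≤ F θ := by
    intro θ
    by_cases h : θ ∈ bad R d
    · simp only [hb, indicator_of_mem h]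
      linarith [hbad θ]
    · simp only [hb, indicator_of_notMem h]
      linarith [hgood θ h]
  have hbm : Measurable b := measurable_const.indicator (measurable_bad R d)
  have hbint : IntervalIntegrable b volume 0 (2 * π * M) := by
    rw [intervalIntegrable_iff]
    refine Measure.integrableOn_of_bounded (M := 1) ?_ hbm.aestronglyMeasurable
      (Eventually.of_forall fun x => ?_)
    · rw [uIoc, Real.volume_Ioc]
      exact ENNReal.ofReal_ne_top
    · simp only [hb, indicator]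
      split_ifs <;> simp
  have hMpos : (0:ℝ) < M := by exact_mod_cast hM1
  have h1 : ∫ θ in (0:ℝ)..(2 * π * M), (δ / 8 - (δ / 8 + 4 / δ) * b θ) ≤
      ∫ θ in (0:ℝ)..(2 * π * M), F θ := by
    refine integral_mono_on (by positivity) ?_ (hFc.intervalIntegrable _ _) fun θ _ => hlowF θ
    exact (intervalIntegrable_const).sub (hbint.const_mul _)
  rw [hint0, intervalIntegral.integral_sub intervalIntegrable_const (hbint.const_mul _),
    intervalIntegral.integral_const, intervalIntegral.integral_const_mul, sub_zero,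
    smul_eq_mul] at h1
  have h2 := integral_bad R hd0 M
  rw [← hb] at h2
  have hRn : (R.card : ℝ) ≤ n := by exact_mod_cast hR.trans hkn
  have h3 : 2 * (M:ℝ) * (R.card * (10 * d)) ≤ 2 * M * (n * (10 * d)) := by gcongr
  have h4 : (δ / 8 + 4 / δ) * (∫ θ in (0:ℝ)..(2 * π * M), b θ) ≤
      (δ / 8 + 4 / δ) * (2 * M * (n * (10 * d))) :=
    mul_le_mul_of_nonneg_left (h2.trans h3) (by positivity)
  have h5 : (δ / 8 + 4 / δ) * (2 * M * (n * (10 * d))) ≤ M * (δ / 2) := by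
    have a1 : δ / 8 + 4 / δ ≤ 5 / δ := by
      rw [div_add_div _ _ (by norm_num) hδ.ne', div_le_div_iff₀ (by positivity) hδ]
      nlinarith
    have a2 : (n : ℝ) * (10 * d) ≤ δ ^ 2 / 20 := by
      rw [hd]
      have : (n : ℝ) * (10 * (δ ^ 2 / (200 * (n + 1)))) = δ ^ 2 / 20 * (n / (n + 1)) := by
        field_simp
        ring
      rw [this]
      have h6 : (n : ℝ) / (n + 1) ≤ 1 := by
        rw [div_le_one (by positivity)]
        linarith
      nlinarith [sq_nonneg δ]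
    calc (δ / 8 + 4 / δ) * (2 * M * (n * (10 * d))) ≤ 5 / δ * (2 * M * (δ ^ 2 / 20)) := by
          gcongr
      _ = M * (δ / 2) := by
          field_simp
          ring
  have h6 : (M : ℝ) * (δ / 2) < 2 * π * M * (δ / 8) := by
    have := Real.pi_gt_three
    have h7 : (M:ℝ) * δ > 0 := by positivity
    nlinarith
  linarith

end Pool.Agent.W960.HQ
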