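import Pool.Agent.W960.HQ.Key

/-! A star-shaped closed orbit is a graph in polar coordinates. -/

open Real Set MeasureTheory Topology Filter intervalIntegral
open scoped ENNReal

namespace Pool.Agent.W960.HQ

open Pool.Agent.H709R2 (rot wedge field ClosedOrbit)
open Pool.Agent.H709U

/-- polar angle along a curve which avoids the origin -/
lemma exists_angle_lift {c y : ℝ → ℂ} {T : ℝ} (hd : ∀ t, HasDerivAt c (y t) t)
    (hy : Continuous y) (hper : c T = c 0) (hne : ∀ t, c t ≠ 0) :
    ∃ Θ : ℝ → ℝ, (∀ t, HasDerivAt Θ ((y t / c t).im) t) ∧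
      (∀ t, c t = ‖c t‖ * Complex.exp (Θ t * Complex.I)) ∧
      ∃ k : ℤ, Θ T = Θ 0 + 2 * π * k := by
  have hc : Continuous c := continuous_iff_continuousAt.mpr fun t => (hd t).continuousAt
  have hf : Continuous fun t => y t / c t := hy.div hc hne
  set F : ℝ → ℂ := fun t => ∫ s in (0:ℝ)..t, y s / c s with hF
  have hFd : ∀ t, HasDerivAt F (y t / c t) t := fun t =>
    (hf.integral_hasStrictDerivAt 0 t).hasDerivAt
  have hg : ∀ t, HasDerivAt (fun t => c t * Complex.exp (-F t)) 0 t := by
    intro t
    have h := (hd t).mul (((hFd t).neg).cexp)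
    refine h.congr_deriv ?_
    have := hne t
    field_simp
    ring
  have hF0 : F 0 = 0 := by simp [hF]
  have hconst : ∀ t, c t * Complex.exp (-F t) = c 0 := by
    intro t
    have := is_const_of_deriv_eq_zero (fun t => (hg t).differentiableAt) (fun t => (hg t).deriv) t 0
    rw [this, hF0]
    simp
  set θ₀ := Complex.arg (c 0) with hθ₀
  have hc0 : c 0 = ‖c 0‖ * Complex.exp (θ₀ * Complex.I) := (Complex.norm_mul_exp_arg_mul_I _).symm
  have hct : ∀ t, c t = ((‖c 0‖ * Real.exp (F t).re : ℝ) : ℂ) *
      Complex.exp (((θ₀ + (F t).im : ℝ) : ℂ) * Complex.I) := by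
    intro t
    have h1 : c t = c 0 * Complex.exp (F t) := by
      rw [← hconst t, mul_assoc, ← Complex.exp_add]
      simp
    rw [h1]
    conv_lhs => rw [hc0, show F t = ((F t).re : ℂ) + (F t).im * Complex.I from
      (Complex.re_add_im _).symm, Complex.exp_add]
    push_cast
    rw [add_mul, Complex.exp_add]
    ring
  have hnorm : ∀ t, ‖c t‖ = ‖c 0‖ * Real.exp (F t).re := by
    intro t
    conv_lhs => rw [hct t]
    rw [norm_mul, Complex.norm_exp_ofReal_mul_I, mul_one, Complex.norm_real, Real.norm_eq_abs,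
      abs_of_nonneg (by positivity)]
  refine ⟨fun t => θ₀ + (F t).im, fun t => ?_, fun t => ?_, ?_⟩
  · have h1 : HasDerivAt (fun t => (F t).im) ((y t / c t).im) t := by
      have := (Complex.imCLM.hasFDerivAt (x := F t)).comp_hasDerivAt t (hFd t)
      exact this
    exact h1.const_add θ₀
  · rw [hnorm]
    exact hct t
  · have h1 : Complex.exp (F T) = 1 := by
      have h2 := hconst T
      rw [hper] at h2
      have h3 : Complex.exp (-F T) = 1 := mul_left_cancel₀ (hne 0) (by rw [h2, mul_one])
      have h4 : Complex.exp (F T) * Complex.exp (-F T) = 1 := by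
        rw [← Complex.exp_add]
        simp
      rw [h3, mul_one] at h4
      exact h4
    obtain ⟨k, hk⟩ := Complex.exp_eq_one_iff.mp h1
    refine ⟨k, ?_⟩
    simp only [hF0, Complex.zero_im, add_zero]
    have h5 : (F T).im = 2 * π * k := by
      rw [hk]
      simp
      ring
    rw [h5]

/-- graph representation -/
theorem exists_graph {X : ℝ × ℝ → ℝ × ℝ} (hX : Continuous X) {p : ℝ × ℝ} {α : ℝ}
    {γ : ℝ → ℝ × ℝ} {T : ℝ} (hO : Orb (rf X α) γ T) (hV : ∀ t, V X p α (γ t) ≠ 0) :
    ∃ (u : ℝ → ℝ) (m : ℕ), 1 ≤ m ∧ (∀ θ, pt p (u θ) θ ∈ range γ) ∧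
      (∀ θ, HasDerivAt u (W X p α (pt p (u θ) θ) / V X p α (pt p (u θ) θ)) θ) ∧
      ∀ θ, u (θ + 2 * π * m) = u θ := by
  have hγc : Continuous γ := continuous_iff_continuousAt.mpr fun t => (hO.ode t).continuousAt
  have hrot : Continuous fun t => rot α (X (γ t)) := by
    unfold rot
    have := hX.comp hγc
    fun_prop
  have hVc : Continuous fun t => V X p α (γ t) := by
    unfold V wedge
    fun_prop
  -- the curve in the complex plane
  set c : ℝ → ℂ := fun t => ⟨(γ t).1 - p.1, (γ t).2 - p.2⟩ with hc
  set y : ℝ → ℂ := fun t => ⟨(rot α (X (γ t))).1, (rot α (X (γ t))).2⟩ with hy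
  have hcd : ∀ t, HasDerivAt c (y t) t := by
    intro t
    have h := hO.ode t
    have h1 : HasDerivAt (fun t => (γ t).1 - p.1) (rot α (X (γ t))).1 t :=
      (h.fst).sub_const _
    have h2 : HasDerivAt (fun t => (γ t).2 - p.2) (rot α (X (γ t))).2 t :=
      (h.snd).sub_const _
    have h3 := (h1.ofReal_comp).add ((h2.ofReal_comp).mul_const Complex.I)
    have e1 : c = fun t => (((γ t).1 - p.1 : ℝ) : ℂ) + (((γ t).2 - p.2 : ℝ) : ℂ) * Complex.I := by
      funext t
      apply Complex.ext <;> simp [hc]
    rw [e1]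
    refine h3.congr_deriv ?_
    apply Complex.ext <;> simp [hy]
  have hyc : Continuous y := by
    have e1 : y = fun t => (((rot α (X (γ t))).1 : ℝ) : ℂ)
        + (((rot α (X (γ t))).2 : ℝ) : ℂ) * Complex.I := by
      funext t
      apply Complex.ext <;> simp [hy]
    rw [e1]
    fun_prop
  have hsq : ∀ t, 0 < H709R2.sq (γ t - p) := by
    intro t
    have h1 := hV t
    unfold H709R2.sq
    by_contra hcon
    apply h1
    have h2 : (γ t - p).1 = 0 := by nlinarith [sq_nonneg (γ t - p).1, sq_nonneg (γ t - p).2]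
    have h3 : (γ t - p).2 = 0 := by nlinarith [sq_nonneg (γ t - p).1, sq_nonneg (γ t - p).2]
    unfold V wedge
    rw [h2, h3]; ring
  have hcnsq : ∀ t, Complex.normSq (c t) = H709R2.sq (γ t - p) := by
    intro t
    unfold H709R2.sq
    simp only [hc, Complex.normSq_mk, Prod.fst_sub, Prod.snd_sub]
    ring
  have hcne : ∀ t, c t ≠ 0 := by
    intro t h
    have h1 := hsq t
    rw [← hcnsq, h] at h1
    simp at h1
  have him : ∀ t, (y t / c t).im = V X p α (γ t) / H709R2.sq (γ t - p) := by
    intro t
    rw [Complex.div_im, hcnsq, ← sub_div]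
    congr 1
    simp only [hy, hc, V, wedge, Prod.fst_sub, Prod.snd_sub]
    ring
  have hper : c T = c 0 := by
    have := hO.per 0
    rw [zero_add] at this
    simp only [hc]
    rw [this]
  obtain ⟨Θ, hΘd, hΘ, k, hk⟩ := exists_angle_lift hcd hyc hper hcne
  simp only [him] at hΘd
  -- the polar representation
  have hlg : ∀ t, Real.exp (lg p (γ t)) = ‖c t‖ := by
    intro t
    unfold lg
    rw [← Real.log_sqrt (hsq t).le, Real.exp_log (Real.sqrt_pos.2 (hsq t)), ← hcnsq,
      Complex.norm_def]
  have hpt : ∀ t, pt p (lg p (γ t)) (Θ t) = γ t := by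
    intro t
    have h1 := hΘ t
    have hre := congrArg Complex.re h1
    have hi := congrArg Complex.im h1
    rw [Complex.re_ofReal_mul, Complex.exp_ofReal_mul_I_re] at hre
    rw [Complex.im_ofReal_mul, Complex.exp_ofReal_mul_I_im] at hi
    unfold pt
    rw [hlg]
    apply Prod.ext
    · simp only [hc] at hre ⊢
      linarith
    · simp only [hc] at hi ⊢
      linarith
  -- the derivative of the logarithm of the radius
  have hlgd : ∀ t, HasDerivAt (fun t => lg p (γ t)) (W X p α (γ t) / H709R2.sq (γ t - p)) t := by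
    intro t
    have h := hO.ode t
    have h1 : HasDerivAt (fun t => (γ t).1 - p.1) (rot α (X (γ t))).1 t := (h.fst).sub_const _
    have h2 : HasDerivAt (fun t => (γ t).2 - p.2) (rot α (X (γ t))).2 t := (h.snd).sub_const _
    have h3 := (h1.pow 2).add (h2.pow 2)
    have h4 : HasDerivAt (fun t => H709R2.sq (γ t - p)) _ t := h3
    have h5 := (h4.log (hsq t).ne').div_const 2
    refine h5.congr_deriv ?_
    unfold W H709U.dot
    simp only [Prod.fst_sub, Prod.snd_sub]
    have := (hsq t).ne'
    field_simp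
    push_cast
    ring
  -- the periodic increments
  have hΘper : ∀ t, Θ (t + T) = Θ t + 2 * π * k := by
    intro t
    have hd : ∀ t, HasDerivAt (fun t => Θ (t + T) - Θ t) 0 t := by
      intro t
      have h1 := (hΘd (t + T)).comp_add_const t T
      have h2 := h1.sub (hΘd t)
      refine h2.congr_deriv ?_
      rw [hO.per, sub_self]
    have := is_const_of_deriv_eq_zero (fun t => (hd t).differentiableAt) (fun t => (hd t).deriv) t 0
    simp only [zero_add] at this
    linarith
  -- the sign
  obtain ⟨σ, hσ, hσV⟩ : ∃ σ : ℝ, (σ = 1 ∨ σ = -1) ∧ ∀ t, 0 < σ * V X p α (γ t) := by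
    rcases lt_or_gt_of_ne (hV 0) with h0 | h0
    · refine ⟨-1, Or.inr rfl, fun t => ?_⟩
      by_contra hcon
      obtain ⟨s, hs⟩ := mem_range_of_exists_le_of_exists_ge hVc ⟨0, h0.le⟩ ⟨t, by linarith⟩
      exact hV s hs
    · refine ⟨1, Or.inl rfl, fun t => ?_⟩
      by_contra hcon
      obtain ⟨s, hs⟩ := mem_range_of_exists_le_of_exists_ge hVc ⟨t, by linarith⟩ ⟨0, h0.le⟩
      exact hV s hs
  have hσσ : σ * σ = 1 := by rcases hσ with h | h <;> rw [h] <;> norm_num
  set Φ : ℝ → ℝ := fun t => σ * Θ t with hΦ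
  have hΦd : ∀ t, HasDerivAt Φ (σ * V X p α (γ t) / H709R2.sq (γ t - p)) t := by
    intro t
    refine ((hΘd t).const_mul σ).congr_deriv ?_
    rw [mul_div_assoc]
  have hΦpos : ∀ t, 0 < σ * V X p α (γ t) / H709R2.sq (γ t - p) := fun t =>
    div_pos (hσV t) (hsq t)
  have hΦm : StrictMono Φ := by
    apply strictMono_of_deriv_pos
    intro t
    rw [(hΦd t).deriv]
    exact hΦpos t
  have hΦc : Continuous Φ := continuous_iff_continuousAt.mpr fun t => (hΦd t).continuousAt
  have hΦper : ∀ t, Φ (t + T) = Φ t + σ * (2 * π * k) := by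
    intro t
    simp only [hΦ, hΘper]
    ring
  have hkpos : 0 < σ * (2 * π * k) := by
    have h1 := hΦm (show (0:ℝ) < 0 + T by linarith [hO.pos])
    rw [hΦper] at h1
    linarith
  -- the natural number of turns
  obtain ⟨m, hm1, hm⟩ : ∃ m : ℕ, 1 ≤ m ∧ σ * (2 * π * k) = 2 * π * m := by
    rcases hσ with h | h
    · rw [h] at hkpos ⊢
      have h1 : (0:ℝ) < k := by
        by_contra hcon
        have : 1 * (2 * π * (k:ℝ)) ≤ 0 := by
          have := mul_nonpos_of_nonneg_of_nonpos (by positivity : (0:ℝ) ≤ 2 * π) (not_lt.1 hcon)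
          linarith
        linarith
      have h2 : 0 < k := by exact_mod_cast h1
      refine ⟨k.toNat, by omega, ?_⟩
      have h3 : ((k.toNat : ℤ) : ℝ) = (k : ℝ) := by rw [Int.toNat_of_nonneg h2.le]
      rw [← h3]
      push_cast
      ring
    · rw [h] at hkpos ⊢
      have h1 : (k:ℝ) < 0 := by
        by_contra hcon
        have := mul_nonneg (by positivity : (0:ℝ) ≤ 2 * π) (not_lt.1 hcon)
        linarith
      have h2 : k < 0 := by exact_mod_cast h1
      refine ⟨(-k).toNat, by omega, ?_⟩
      have h3 : (((-k).toNat : ℤ) : ℝ) = ((-k : ℤ) : ℝ) := by rw [Int.toNat_of_nonneg (by omega)]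
      have h4 : (((-k).toNat : ℕ) : ℝ) = -(k : ℝ) := by
        have : (((-k).toNat : ℤ) : ℝ) = (((-k).toNat : ℕ) : ℝ) := by norm_cast
        rw [← this, h3]
        push_cast
        ring
      rw [h4]
      ring
  rw [hm] at hΦper hkpos
  have hΦperN : ∀ (j : ℕ) (t : ℝ), Φ (t + j * T) = Φ t + j * (2 * π * m) := by
    intro j
    induction j with
    | zero => intro t; simp
    | succ j ih =>
      intro t
      have : t + ((j + 1 : ℕ) : ℝ) * T = (t + j * T) + T := by push_cast; ring
      rw [this, hΦper, ih]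
      push_cast
      ring
  have hΦsurj : Function.Surjective Φ := by
    apply hΦc.surjective
    · apply tendsto_atTop_mono (f := fun t => Φ 0 + (t / T - 1) * (2 * π * m))
      · intro t
        rcases lt_or_ge t 0 with h | h
        ·
          have hj := Nat.lt_floor_add_one (-t / T)
          set j := ⌊-t / T⌋₊
          have h0 : 0 ≤ t + ((j + 1 : ℕ) : ℝ) * T := by
            rw [div_lt_iff₀ hO.pos] at hj
            push_cast
            linarith
          have h1 := hΦm.monotone h0
          rw [hΦperN] at h1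
          have hj2 : (j : ℝ) ≤ -t / T := Nat.floor_le (by
            apply div_nonneg (by linarith) hO.pos.le)
          have h2 : t / T = -(-t / T) := by ring
          push_cast at h1
          have h3 : (t / T - 1) ≤ -((j : ℝ) + 1) := by rw [h2]; linarith
          have h4 := mul_le_mul_of_nonneg_right h3 hkpos.le
          linarith
        · have hj := Nat.floor_le (div_nonneg h hO.pos.le)
          have hj2 := Nat.lt_floor_add_one (t / T)
          set j := ⌊t / T⌋₊
          have h0 : 0 + (j : ℝ) * T ≤ t := by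
            rw [le_div_iff₀ hO.pos] at hj
            linarith
          have h1 := hΦm.monotone h0
          rw [hΦperN] at h1
          have h3 : (t / T - 1) ≤ (j : ℝ) := by linarith
          have h4 := mul_le_mul_of_nonneg_right h3 hkpos.le
          linarith
      · apply tendsto_atTop_add_const_left
        apply Tendsto.atTop_mul_const hkpos
        apply tendsto_atTop_add_const_right
        exact tendsto_id.atTop_div_const hO.pos
    · apply tendsto_atBot_mono (g := Φ) (f := fun t => Φ 0 + (t / T + 1) * (2 * π * m))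
      · intro t
        rcases lt_or_ge t 0 with h | h
        · have hj := Nat.floor_le (div_nonneg (by linarith : (0:ℝ) ≤ -t) hO.pos.le)
          have hj2 := Nat.lt_floor_add_one (-t / T)
          set j := ⌊-t / T⌋₊
          have h0 : t + (j : ℝ) * T ≤ 0 := by
            rw [le_div_iff₀ hO.pos] at hj
            linarith
          have h1 := hΦm.monotone h0
          rw [hΦperN] at h1
          have h2 : t / T = -(-t / T) := by ring
          have h3 : -(j : ℝ) ≤ t / T + 1 := by rw [h2]; linarith
          have h4 := mul_le_mul_of_nonneg_right h3 hkpos.le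
          linarith
        · have hj := Nat.lt_floor_add_one (t / T)
          have hj2 : ((⌊t / T⌋₊ : ℕ) : ℝ) ≤ t / T := Nat.floor_le (div_nonneg h hO.pos.le)
          set j := ⌊t / T⌋₊
          have h0 : t ≤ 0 + ((j + 1 : ℕ) : ℝ) * T := by
            rw [div_lt_iff₀ hO.pos] at hj
            push_cast
            linarith
          have h1 := hΦm.monotone h0
          rw [hΦperN] at h1
          push_cast at h1
          have h3 : (j : ℝ) + 1 ≤ t / T + 1 := by linarith
          have h4 := mul_le_mul_of_nonneg_right h3 hkpos.le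
          linarith
      · apply tendsto_atBot_add_const_left
        apply Tendsto.atBot_mul_const hkpos
        apply tendsto_atBot_add_const_right
        exact tendsto_id.atBot_div_const hO.pos
  -- the inverse function
  set e : ℝ ≃o ℝ := hΦm.orderIsoOfSurjective Φ hΦsurj with he
  set τ : ℝ → ℝ := fun φ => e.symm φ with hτ
  have hΦτ : ∀ φ, Φ (τ φ) = φ := fun φ => e.apply_symm_apply φ
  have hτΦ : ∀ t, τ (Φ t) = t := fun t => e.symm_apply_apply t
  have hτc : Continuous τ := e.symm.continuous
  have hτd : ∀ φ, HasDerivAt τ (σ * V X p α (γ (τ φ)) / H709R2.sq (γ (τ φ) - p))⁻¹ φ := by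
    intro φ
    exact HasDerivAt.of_local_left_inverse hτc.continuousAt (hΦd (τ φ)) (hΦpos _).ne'
      (Eventually.of_forall fun φ => hΦτ φ)
  have hpt2 : ∀ θ, pt p (lg p (γ (τ (σ * θ)))) θ = γ (τ (σ * θ)) := by
    intro θ
    have h1 := hpt (τ (σ * θ))
    have h2 : Θ (τ (σ * θ)) = θ := by
      have h3 := hΦτ (σ * θ)
      simp only [hΦ] at h3
      have h4 : σ * (σ * Θ (τ (σ * θ))) = σ * (σ * θ) := by rw [h3]
      rw [← mul_assoc, ← mul_assoc, hσσ, one_mul, one_mul] at h4
      exact h4
    rwa [h2] at h1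
  refine ⟨fun θ => lg p (γ (τ (σ * θ))), m, hm1, fun θ => ⟨τ (σ * θ), (hpt2 θ).symm⟩,
    fun θ => ?_, fun θ => ?_⟩
  · simp only
    rw [hpt2]
    have h1 : HasDerivAt (fun θ : ℝ => σ * θ) σ θ := by
      simpa using (hasDerivAt_id θ).const_mul σ
    have h2 := (hτd (σ * θ)).comp θ h1
    have h3 := (hlgd (τ (σ * θ))).comp θ h2
    refine h3.congr_deriv ?_
    have hs := (hsq (τ (σ * θ))).ne'
    have hv := hV (τ (σ * θ))
    have hσ0 : σ ≠ 0 := by rcases hσ with h | h <;> rw [h] <;> norm_num
    field_simp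
  · -- periodicity
    simp only
    rcases hσ with h | h
    · have h1 : τ (σ * (θ + 2 * π * m)) = τ (σ * θ) + T := by
        rw [← hτΦ (τ (σ * θ) + T), hΦper, hΦτ, h]
        congr 1
        ring
      rw [h1, hO.per]
    · have h1 : τ (σ * (θ + 2 * π * m)) + T = τ (σ * θ) := by
        rw [← hτΦ (τ (σ * (θ + 2 * π * m)) + T), hΦper, hΦτ, h]
        congr 1
        ring
      rw [← h1, hO.per]

end Pool.Agent.W960.HQ
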