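import Pool.Agent.H709U.Top

/-! Homogeneous parts of a planar polynomial field at a point, in polar coordinates. -/

open Real Set MeasureTheory Topology Filter
open scoped ENNReal

namespace Pool.Agent.W960.HQ

open Pool.Agent.H709R2 (rot wedge field ClosedOrbit)
open Pool.Agent.H709U

/-- adding forms -/
lemma form_add {N : ℕ} (c d : Fin (N + 1) → ℝ) (θ : ℝ) :
    form (c + d) θ = form c θ + form d θ := by
  unfold form
  rw [← Finset.sum_add_distrib]
  exact Finset.sum_congr rfl fun j _ => by simp only [Pi.add_apply]; ring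

lemma form_smul {N : ℕ} (r : ℝ) (c : Fin (N + 1) → ℝ) (θ : ℝ) :
    form (r • c) θ = r * form c θ := by
  unfold form
  rw [Finset.mul_sum]
  exact Finset.sum_congr rfl fun j _ => by simp only [Pi.smul_apply, smul_eq_mul]; ring

lemma form_sin {N : ℕ} (c : Fin (N + 1) → ℝ) (θ : ℝ) :
    form (N := N + 1) (Fin.cons 0 c) θ = sin θ * form c θ := by
  unfold form
  rw [Fin.sum_univ_succ, Finset.mul_sum]
  simp only [Fin.cons_zero, zero_mul, zero_add, Fin.cons_succ, Fin.val_succ]
  refine Finset.sum_congr rfl fun j _ => ?_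
  rw [show N + 1 - ((j : ℕ) + 1) = N - j by omega]
  ring

lemma form_cos {N : ℕ} (c : Fin (N + 1) → ℝ) (θ : ℝ) :
    form (N := N + 1) (Fin.snoc c 0) θ = -cos θ * form c θ := by
  unfold form
  rw [Fin.sum_univ_castSucc, Finset.mul_sum]
  simp only [Fin.snoc_last, zero_mul, add_zero, Fin.snoc_castSucc, Fin.val_castSucc]
  refine Finset.sum_congr rfl fun j _ => ?_
  rw [show N + 1 - (j : ℕ) = N - j + 1 by omega]
  ring

/-- homogeneous polynomials are forms -/
lemma exists_form_of_hom {k : ℕ} {H : MvPolynomial (Fin 2) ℝ} (hH : H.IsHomogeneous k) :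
    ∃ c : Fin (k + 1) → ℝ, ∀ r θ : ℝ,
      MvPolynomial.eval ![r * cos θ, r * sin θ] H = r ^ k * form c θ := by
  -- by induction on the monomials
  have hmon : ∀ (d : Fin 2 →₀ ℕ) (a : ℝ), d.degree = k → ∃ c : Fin (k + 1) → ℝ, ∀ r θ : ℝ,
      MvPolynomial.eval ![r * cos θ, r * sin θ] (MvPolynomial.monomial d a) =
        r ^ k * form c θ := by
    intro d a hd
    have hd2 : d 0 + d 1 = k := by
      rw [← hd, Finsupp.degree_eq_sum, Fin.sum_univ_two]
    refine ⟨Pi.single ⟨d 1, by omega⟩ (a * (-1) ^ d 0), fun r θ => ?_⟩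
    rw [MvPolynomial.eval_monomial, Finsupp.prod_fintype _ _ (by simp), Fin.prod_univ_two]
    unfold form
    rw [Finset.sum_eq_single (⟨d 1, by omega⟩ : Fin (k + 1))]
    · simp only [Pi.single_eq_same, Matrix.cons_val_zero, Matrix.cons_val_one]
      rw [show k - d 1 = d 0 by omega, ← hd2, mul_pow, mul_pow, pow_add, neg_pow (cos θ)]
      have : ((-1 : ℝ) ^ d 0) * (-1) ^ d 0 = 1 := by rw [← mul_pow]; norm_num
      linear_combination (-(a * r ^ d 0 * r ^ d 1 * cos θ ^ d 0 * sin θ ^ d 1)) * this
    · intro j _ hj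
      rw [Pi.single_eq_of_ne hj]
      simp
    · simp
  rw [← H.support_sum_monomial_coeff]
  have hsum : ∀ s : Finset (Fin 2 →₀ ℕ), s ⊆ H.support → ∃ c : Fin (k + 1) → ℝ, ∀ r θ : ℝ,
      MvPolynomial.eval ![r * cos θ, r * sin θ]
        (∑ v ∈ s, MvPolynomial.monomial v (MvPolynomial.coeff v H)) = r ^ k * form c θ := by
    classical
    intro s
    induction s using Finset.induction_on with
    | empty =>
      intro _
      exact ⟨0, fun r θ => by simp [form]⟩
    | insert v s hv ih =>
      intro hs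
      obtain ⟨c, hc⟩ := ih fun w hw => hs (Finset.mem_insert_of_mem hw)
      have hvs : MvPolynomial.coeff v H ≠ 0 :=
        MvPolynomial.mem_support_iff.1 (hs (Finset.mem_insert_self v s))
      have hdeg : v.degree = k := by
        rw [← hH hvs, Finsupp.degree_eq_weight_one]
        rfl
      obtain ⟨c', hc'⟩ := hmon v (MvPolynomial.coeff v H) hdeg
      refine ⟨c' + c, fun r θ => ?_⟩
      rw [Finset.sum_insert hv, map_add, hc, hc', form_add]
      ring
  exact hsum H.support subset_rfl

/-- expansion at `p` in polar coordinates -/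
lemma exists_forms {n : ℕ} {P : MvPolynomial (Fin 2) ℝ} (hP : P.totalDegree ≤ n) (p : ℝ × ℝ) :
    ∃ c : (j : ℕ) → Fin (j + 1) → ℝ, ∀ u θ : ℝ,
      MvPolynomial.eval ![(pt p u θ).1, (pt p u θ).2] P =
        ∑ j ∈ Finset.range (n + 1), exp u ^ j * form (c j) θ := by
  set P' : MvPolynomial (Fin 2) ℝ :=
    MvPolynomial.bind₁ (fun i => MvPolynomial.X i + MvPolynomial.C (![p.1, p.2] i)) P with hP'
  have hdeg : P'.totalDegree ≤ n := by
    rw [hP']
    conv_lhs => rw [← P.support_sum_monomial_coeff]
    rw [map_sum]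
    refine MvPolynomial.totalDegree_finsetSum_le fun v hv => ?_
    rw [MvPolynomial.bind₁_monomial]
    refine (MvPolynomial.totalDegree_mul _ _).trans ?_
    rw [MvPolynomial.totalDegree_C, zero_add]
    refine (MvPolynomial.totalDegree_finsetProd _ _).trans ?_
    have h1 : (v.sum fun _ e => e) ≤ n := (MvPolynomial.le_totalDegree hv).trans hP
    refine le_trans (Finset.sum_le_sum fun i _ => ?_) h1
    refine (MvPolynomial.totalDegree_pow _ _).trans ?_
    have h2 : (MvPolynomial.X i + MvPolynomial.C (![p.1, p.2] i) :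
        MvPolynomial (Fin 2) ℝ).totalDegree ≤ 1 := by
      refine (MvPolynomial.totalDegree_add _ _).trans ?_
      simp
    calc v i * _ ≤ v i * 1 := Nat.mul_le_mul_left _ h2
      _ = v i := mul_one _
  have hev : ∀ x y : ℝ, MvPolynomial.eval ![x, y] P' =
      MvPolynomial.eval ![p.1 + x, p.2 + y] P := by
    intro x y
    rw [hP', ← MvPolynomial.coe_aeval_eq_eval, ← MvPolynomial.coe_aeval_eq_eval]
    simp only [RingHom.coe_coe]
    rw [MvPolynomial.aeval_bind₁]
    congr 2
    funext i
    fin_cases i <;> simp [add_comm]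
  choose c hc using fun j => exists_form_of_hom
    (MvPolynomial.homogeneousComponent_isHomogeneous j P')
  refine ⟨c, fun u θ => ?_⟩
  have h1 : MvPolynomial.eval ![(pt p u θ).1, (pt p u θ).2] P =
      MvPolynomial.eval ![exp u * cos θ, exp u * sin θ] P' := by
    rw [hev]
    rfl
  rw [h1]
  have h2 : P' = ∑ j ∈ Finset.range (n + 1), MvPolynomial.homogeneousComponent j P' := by
    conv_lhs => rw [← MvPolynomial.sum_homogeneousComponent P']
    refine Finset.sum_subset (Finset.range_mono (by omega)) fun j _ hj => ?_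
    apply MvPolynomial.homogeneousComponent_eq_zero
    rw [Finset.mem_range] at hj
    omega
  conv_lhs => rw [h2]
  rw [map_sum]
  exact Finset.sum_congr rfl fun j _ => hc j _ _

end Pool.Agent.W960.HQ
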