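import Pool.Agent.W960.HQ.Zq

/-! Numerical part and the main theorem. -/

open Real Set MeasureTheory Topology Filter
open scoped ENNReal

namespace Pool.Agent.W960.HQ

noncomputable section

open Pool.Agent.H709R2 (rot wedge field ClosedOrbit)
open Pool.Agent.H709U
open Pool.Agent.H709Q (Maj)

lemma log_le_of_two_pow {x : ℝ} (hx : 0 < x) (k : ℕ) (h : x ≤ 2 ^ k) : log x ≤ k * 0.6931471808 := by
  have h1 : log x ≤ log (2 ^ k) := Real.log_le_log hx h
  rw [Real.log_pow] at h1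
  have h2 := Real.log_two_lt_d9
  have h3 : (0:ℝ) ≤ k := Nat.cast_nonneg k
  nlinarith

/-- the width of the windows -/
lemma Lw_le (n : ℕ) {δ : ℝ} (hδ : 0 < δ) (hδ1 : δ ≤ 1) :
    Lw n δ ≤ 28 * (n + 1) * (1 + log ((n + 1) / δ)) := by
  have hn : (0 : ℝ) ≤ n := Nat.cast_nonneg n
  set t : ℝ := (n : ℝ) + 1 with ht
  have ht1 : 1 ≤ t := by rw [ht]; linarith
  have ht0 : 0 < t := by linarith
  have hlt : 0 ≤ log t := Real.log_nonneg ht1
  set m : ℝ := log (1 / δ) with hm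
  have hm0 : 0 ≤ m := Real.log_nonneg (by rw [le_div_iff₀ hδ]; linarith)
  have hl : log (t / δ) = log t + m := by
    rw [hm, ← Real.log_mul ht0.ne' (by positivity)]
    congr 1
    ring
  rw [hl]
  have h3 : log 3 ≤ 1.4 := by
    have := log_le_of_two_pow (x := 3) (by norm_num) 2 (by norm_num)
    push_cast at this
    linarith
  have h8 : log 8 ≤ 2.08 := by
    have := log_le_of_two_pow (x := 8) (by norm_num) 3 (by norm_num)
    push_cast at this
    linarith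
  have h600 : log 600 ≤ 6.94 := by
    have := log_le_of_two_pow (x := 600) (by norm_num) 10 (by norm_num)
    push_cast at this
    linarith
  have e1 : log (3 / δ) = log 3 + m := by
    rw [hm, ← Real.log_mul (by norm_num) (by positivity)]
    congr 1
    ring
  have hL : L0 n δ ≤ (2.08 + 2 * log t + 16 * t * (1.4 + m)) / 2 := by
    unfold L0
    refine div_le_div_of_nonneg_right ?_ (by norm_num)
    rw [Real.log_mul (by rw [z_nM]; positivity) (by positivity), Real.log_pow, z_nM, z_nN, e1]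
    have h1 : log (8 * (n : ℝ) ^ 2 + 10 * n + 3) ≤ 2.08 + 2 * log t := by
      have h2 : log (8 * (n : ℝ) ^ 2 + 10 * n + 3) ≤ log (8 * t ^ 2) := by
        apply Real.log_le_log (by positivity)
        rw [ht]
        nlinarith
      rw [Real.log_mul (by norm_num) (by positivity), Real.log_pow] at h2
      push_cast at h2
      linarith
    have h5 : (16 * (n : ℝ) + 3) * (log 3 + m) ≤ 16 * t * (1.4 + m) := by
      have h6 : 0 ≤ log 3 + m := add_nonneg (Real.log_nonneg (by norm_num)) hm0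
      have h7 : 16 * (n : ℝ) + 3 ≤ 16 * t := by rw [ht]; linarith
      exact mul_le_mul h7 (by linarith) h6 (by positivity)
    linarith
  have hS : sn n δ ≤ 2 * t * (6.94 + log t + 2 * m) := by
    unfold sn
    have e2 : log (1 / yy n δ) = log 600 + log t + 2 * m := by
      have e3 : 1 / yy n δ = 600 * t * (1 / δ) ^ 2 := by
        unfold yy
        rw [ht]
        field_simp
      rw [e3, Real.log_mul (by positivity) (by positivity), Real.log_mul (by norm_num) ht0.ne',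
        Real.log_pow, ← hm]
      push_cast
      ring
    rw [e2]
    have h6 : 0 ≤ log 600 := Real.log_nonneg (by norm_num)
    have h7 : (n : ℝ) + 2 ≤ 2 * t := by rw [ht]; linarith
    exact mul_le_mul h7 (by linarith) (by positivity) (by positivity)
  unfold Lw
  have h9 : 0 ≤ t * log t := by positivity
  have h10 : 0 ≤ t * m := by positivity
  nlinarith

/-- the numerical estimate of the majorant -/
lemma q_num (n : ℕ) {ε : ℝ} (hε : 0 < ε) (hε1 : ε ≤ 1) :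
    (n : ℝ) ^ 2 * ((((nM n : ℕ) + 1) ^ 2 + (n : ℝ) ^ 2 + (n + 1) ^ 2) *
      (2 * Lw n (ε / (5200 * ((n : ℝ) + 1) ^ 5)) + 2) * (8000 * (n + 1))) ≤
      (10 ^ 9 * (n + 1) ^ 8 * (1 + log ((n + 1) / ε)) / ε) * (ε / 2) := by
  have hn : (0 : ℝ) ≤ n := Nat.cast_nonneg n
  set t : ℝ := (n : ℝ) + 1 with ht
  have ht1 : 1 ≤ t := by rw [ht]; linarith
  have ht0 : 0 < t := by linarith
  have hlt : 0 ≤ log t := Real.log_nonneg ht1
  set m : ℝ := log (1 / ε) with hm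
  have hm0 : 0 ≤ m := Real.log_nonneg (by rw [le_div_iff₀ hε]; linarith)
  have hl : log (t / ε) = log t + m := by
    rw [hm, ← Real.log_mul ht0.ne' (by positivity)]
    congr 1
    ring
  set δ : ℝ := ε / (5200 * t ^ 5) with hδ
  have hδ0 : 0 < δ := by positivity
  have hδ1 : δ ≤ 1 := by
    rw [hδ, div_le_one (by positivity)]
    have := one_le_pow₀ (n := 5) ht1
    linarith
  have h1 := Lw_le n hδ0 hδ1
  rw [← ht] at h1
  have h2 : log (t / δ) ≤ 9.02 + 6 * log t + m := by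
    have e1 : t / δ = 5200 * t ^ 6 * (1 / ε) := by
      rw [hδ]
      field_simp
    rw [e1, Real.log_mul (by positivity) (by positivity), Real.log_mul (by norm_num)
      (by positivity), Real.log_pow, ← hm]
    have := log_le_of_two_pow (x := 5200) (by norm_num) 13 (by norm_num)
    push_cast at this ⊢
    linarith
  rw [hl]
  set ℓ : ℝ := log t + m with hℓ
  have hℓ0 : 0 ≤ ℓ := by positivity
  have h3 : 2 * Lw n δ + 2 ≤ 580 * t * (1 + ℓ) := by
    have a1 : 28 * t * (1 + log (t / δ)) ≤ 28 * t * (1 + (9.02 + 6 * ℓ)) := by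
      apply mul_le_mul_of_nonneg_left _ (by positivity)
      linarith
    have a2 : 0 ≤ t * ℓ := by positivity
    nlinarith
  have h4 : (8 * (n : ℝ) ^ 2 + 10 * n + 3) ^ 2 + (n : ℝ) ^ 2 + t ^ 2 ≤ 64 * t ^ 4 := by
    have e : (8 * (n : ℝ) ^ 2 + 10 * n + 3) = 8 * t ^ 2 - 6 * t + 1 := by rw [ht]; ring
    have e2 : (n : ℝ) = t - 1 := by rw [ht]; ring
    rw [e, e2]
    have a1 : t ^ 2 ≤ t ^ 3 := pow_le_pow_right₀ ht1 (by norm_num)
    nlinarith [pow_pos ht0 3]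
  have h5 : (n : ℝ) ^ 2 ≤ t ^ 2 := by rw [ht]; nlinarith
  have hL0 : 0 ≤ 2 * Lw n δ + 2 := by
    have a1 := Pool.Agent.H709U.Z1aux.L0_nonneg n δ hδ0 hδ1
    have a2 := sn_pos (n := n) hδ0 hδ1
    unfold Lw
    linarith
  have h6 : (n : ℝ) ^ 2 * ((((nM n : ℕ) + 1) ^ 2 + (n : ℝ) ^ 2 + t ^ 2) *
      (2 * Lw n δ + 2) * (8000 * t)) ≤ t ^ 2 * ((64 * t ^ 4) * (580 * t * (1 + ℓ)) * (8000 * t)) := by
    rw [z_nM]
    have hb : 0 ≤ 580 * t * (1 + ℓ) := by positivity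
    have hc := mul_le_mul h4 h3 hL0 (by positivity : (0:ℝ) ≤ 64 * t ^ 4)
    have hd := mul_le_mul_of_nonneg_right hc (by positivity : (0:ℝ) ≤ 8000 * t)
    exact mul_le_mul h5 hd (by positivity) (by positivity)
  refine h6.trans ?_
  have e5 : t ^ 2 * ((64 * t ^ 4) * (580 * t * (1 + ℓ)) * (8000 * t)) =
      296960000 * (t ^ 8 * (1 + ℓ)) := by ring
  have e6 : (10 ^ 9 * t ^ 8 * (1 + ℓ) / ε) * (ε / 2) = 500000000 * (t ^ 8 * (1 + ℓ)) := by
    field_simp
    ring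
  rw [e5, e6]
  have : 0 ≤ t ^ 8 * (1 + ℓ) := by positivity
  linarith

lemma q_vol (n : ℕ) {ε : ℝ} (hε : 0 < ε) :
    (n : ℝ) ^ 2 * ((((nM n : ℕ) + 1) * (nN n : ℕ) + (n + 1)) *
      (20 * (ε / (5200 * ((n : ℝ) + 1) ^ 5))) + (n + 1) * (8 * (ε / (5200 * ((n : ℝ) + 1) ^ 5)))) ≤
      ε / 2 := by
  have hn : (0 : ℝ) ≤ n := Nat.cast_nonneg n
  rw [z_nM, z_nN]
  set t : ℝ := (n : ℝ) + 1 with ht
  have ht1 : 1 ≤ t := by rw [ht]; linarith
  have ht0 : 0 < t := by linarith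
  have h1 : (8 * (n : ℝ) ^ 2 + 10 * n + 3) ≤ 8 * t ^ 2 := by rw [ht]; nlinarith
  have h2 : (16 * (n : ℝ) + 3) ≤ 16 * t := by rw [ht]; linarith
  have h3 : (n : ℝ) ^ 2 ≤ t ^ 2 := by rw [ht]; nlinarith
  have h4 : t ≤ t ^ 3 := le_self_pow₀ ht1 (by norm_num)
  set δ : ℝ := ε / (5200 * t ^ 5) with hδ
  have hδ0 : 0 < δ := by positivity
  calc (n : ℝ) ^ 2 * (((8 * (n : ℝ) ^ 2 + 10 * n + 3) * (16 * (n : ℝ) + 3) + t) *
        (20 * δ) + t * (8 * δ))
      ≤ t ^ 2 * (((8 * t ^ 2) * (16 * t) + t ^ 3) * (20 * δ) + t ^ 3 * (8 * δ)) := by gcongr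
    _ = 2588 * t ^ 5 * δ := by ring
    _ ≤ 2600 * t ^ 5 * δ := by
        have : 0 ≤ t ^ 5 * δ := by positivity
        nlinarith
    _ = ε / 2 := by
        rw [hδ]
        field_simp
        norm_num

/-- the bound -/
def bq (n : ℕ) (ε : ℝ) : ℝ := 10 ^ 9 * (n + 1) ^ 8 * (1 + log ((n + 1) / ε)) / ε

lemma log_nonneg' (n : ℕ) {ε : ℝ} (hε : 0 < ε) (hε1 : ε ≤ 1) : 0 ≤ log ((n + 1) / ε) := by
  apply Real.log_nonneg
  rw [le_div_iff₀ hε]
  have : (0:ℝ) ≤ n := Nat.cast_nonneg n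
  linarith

lemma bq_pos (n : ℕ) {ε : ℝ} (hε : 0 < ε) (hε1 : ε ≤ 1) : 0 < bq n ε := by
  have h := log_nonneg' n hε hε1
  unfold bq
  have : (0:ℝ) < (n:ℝ) + 1 := by positivity
  positivity

/-- the main theorem -/
theorem mainq {n : ℕ} {P Q : MvPolynomial (Fin 2) ℝ} (hP : P.totalDegree ≤ n)
    (hQ : Q.totalDegree ≤ n) (hne : P ≠ 0 ∨ Q ≠ 0) {ε : ℝ} (hε : 0 < ε) (hε1 : ε ≤ 1) :
    volume {α | α ∈ Ioo 0 π ∧ ENNReal.ofReal (bq n ε) < ((Cl P Q α).encard : ℝ≥0∞)} ≤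
      ENNReal.ofReal ε := by
  obtain ⟨h, P₁, Q₁, rfl, rfl, hrel, hP1, hQ1⟩ := b1 n P Q hP hQ hne
  set t : ℝ := (n : ℝ) + 1 with ht
  have hn : (0 : ℝ) ≤ n := Nat.cast_nonneg n
  have ht1 : 1 ≤ t := by rw [ht]; linarith
  set δ : ℝ := ε / (5200 * t ^ 5) with hδ
  have hδ0 : 0 < δ := by positivity
  have hδ1 : δ ≤ 1 := by
    rw [hδ, div_le_one (by positivity)]
    have := one_le_pow₀ (n := 5) ht1
    linarith
  obtain ⟨B, hB, g, hg, hgN, hgI⟩ := zq hP1 hQ1 hrel hδ0 hδ1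
  set T : ℝ := bq n ε with hT
  have hT0 : 0 < T := bq_pos n hε hε1
  have hsub : {α | α ∈ Ioo 0 π ∧ ENNReal.ofReal T < ((Cl (h * P₁) (h * Q₁) α).encard : ℝ≥0∞)} ⊆
      B ∪ ({α | ENNReal.ofReal T ≤ g α} ∩ Ioo 0 π) := by
    rintro α ⟨h1, h2⟩
    by_cases hα : α ∈ B
    · exact Or.inl hα
    · refine Or.inr ⟨?_, h1⟩
      have h3 := hgN α h1
      simp only [indicator_of_mem (show α ∈ Bᶜ from hα)] at h3
      have h4 : ((Cl (h * P₁) (h * Q₁) α).encard : ℝ≥0∞) ≤ ((Cl P₁ Q₁ α).encard : ℝ≥0∞) := by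
        exact_mod_cast Set.encard_le_encard (b2 m0 h P₁ Q₁ α)
      exact (h2.le.trans h4).trans h3
  have hMark : volume ({α | ENNReal.ofReal T ≤ g α} ∩ Ioo 0 π) ≤ ENNReal.ofReal (ε / 2) := by
    have hms : MeasurableSet {α | ENNReal.ofReal T ≤ g α} := measurableSet_le measurable_const hg
    rw [← Measure.restrict_apply hms]
    refine (meas_ge_le_lintegral_div hg.aemeasurable ?_ ENNReal.ofReal_ne_top).trans ?_
    · simpa using hT0
    · refine (ENNReal.div_le_div_right hgI _).trans ?_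
      rw [← ENNReal.ofReal_div_of_pos hT0]
      refine ENNReal.ofReal_le_ofReal ?_
      rw [div_le_iff₀ hT0, mul_comm (ε / 2) T]
      exact q_num n hε hε1
  calc volume {α | α ∈ Ioo 0 π ∧ ENNReal.ofReal T < ((Cl (h * P₁) (h * Q₁) α).encard : ℝ≥0∞)}
      ≤ volume (B ∪ ({α | ENNReal.ofReal T ≤ g α} ∩ Ioo 0 π)) := measure_mono hsub
    _ ≤ volume B + volume ({α | ENNReal.ofReal T ≤ g α} ∩ Ioo 0 π) := measure_union_le _ _
    _ ≤ ENNReal.ofReal (ε / 2) + ENNReal.ofReal (ε / 2) :=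
        add_le_add (hB.trans (ENNReal.ofReal_le_ofReal (q_vol n hε))) hMark
    _ = ENNReal.ofReal ε := by
        rw [← ENNReal.ofReal_add (by positivity) (by positivity)]
        congr 1
        ring

end

end Pool.Agent.W960.HQ
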