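import Pool.Agent.W960.HQ.Hom

/-! The homogeneous parts of the field, their sizes and domination. -/

open Real Set MeasureTheory Topology Filter
open scoped ENNReal

namespace Pool.Agent.W960.HQ

open Pool.Agent.H709R2 (rot wedge field ClosedOrbit)
open Pool.Agent.H709U

/-- the homogeneous parts of the field at `p`, as functions of the angle -/
structure Parts (n : ℕ) (P Q : MvPolynomial (Fin 2) ℝ) (p : ℝ × ℝ) where
  a : (j : ℕ) → Fin (j + 1) → ℝ
  b : (j : ℕ) → Fin (j + 1) → ℝ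
  eq : ∀ u θ : ℝ, field P Q (pt p u θ) =
    (∑ j ∈ Finset.range (n + 1), exp u ^ j * form (a j) θ,
      ∑ j ∈ Finset.range (n + 1), exp u ^ j * form (b j) θ)

lemma exists_parts {n : ℕ} {P Q : MvPolynomial (Fin 2) ℝ} (hP : P.totalDegree ≤ n)
    (hQ : Q.totalDegree ≤ n) (p : ℝ × ℝ) : Nonempty (Parts n P Q p) := by
  obtain ⟨a, ha⟩ := exists_forms hP p
  obtain ⟨b, hb⟩ := exists_forms hQ p
  exact ⟨⟨a, b, fun u θ => Prod.ext (ha u θ) (hb u θ)⟩⟩

namespace Parts

variable {n : ℕ} {P Q : MvPolynomial (Fin 2) ℝ} {p : ℝ × ℝ} (D : Parts n P Q p)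

/-- squared length of the homogeneous part -/
noncomputable def q (j : ℕ) (θ : ℝ) : ℝ := form (D.a j) θ ^ 2 + form (D.b j) θ ^ 2

lemma q_nonneg (j : ℕ) (θ : ℝ) : 0 ≤ D.q j θ := by unfold q; positivity

lemma exists_max (j : ℕ) : ∃ t : ℝ, ∀ θ, D.q j θ ≤ D.q j t := by
  have hc : ContinuousOn (D.q j) (Icc 0 (2 * π)) :=
    (((E2.form_continuous (D.a j)).pow 2).add ((E2.form_continuous (D.b j)).pow 2)).continuousOn
  obtain ⟨β, hβ, hmax⟩ := isCompact_Icc.exists_isMaxOn
    (nonempty_Icc.mpr (by positivity : (0 : ℝ) ≤ 2 * π)) hc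
  refine ⟨β, fun θ => ?_⟩
  have hper : Function.Periodic (D.q j) (2 * π) := by
    intro x
    unfold q
    rw [E2.form_periodic (D.a j) x, E2.form_periodic (D.b j) x]
  obtain ⟨y, hy, hy2⟩ := hper.exists_mem_Ico₀ (by positivity) θ
  rw [hy2]
  exact hmax (Ico_subset_Icc_self hy)

/-- the angle at which the homogeneous part is largest -/
noncomputable def tm (j : ℕ) : ℝ := (D.exists_max j).choose

lemma q_le (j : ℕ) (θ : ℝ) : D.q j θ ≤ D.q j (D.tm j) := (D.exists_max j).choose_spec θ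

/-- the size of the homogeneous part -/
noncomputable def m (j : ℕ) : ℝ := √(D.q j (D.tm j))

lemma m_nonneg (j : ℕ) : 0 ≤ D.m j := Real.sqrt_nonneg _

lemma sqrt_q_le (j : ℕ) (θ : ℝ) : √(D.q j θ) ≤ D.m j := Real.sqrt_le_sqrt (D.q_le j θ)

lemma m_sq (j : ℕ) : D.m j ^ 2 = D.q j (D.tm j) := Real.sq_sqrt (D.q_nonneg _ _)

/-- angular component of the rotated homogeneous part -/
noncomputable def g (j : ℕ) (α θ : ℝ) : ℝ :=
  cos θ * (sin α * form (D.a j) θ + cos α * form (D.b j) θ) -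
    sin θ * (cos α * form (D.a j) θ - sin α * form (D.b j) θ)

/-- radial component of the rotated homogeneous part -/
noncomputable def h (j : ℕ) (α θ : ℝ) : ℝ :=
  cos θ * (cos α * form (D.a j) θ - sin α * form (D.b j) θ) +
    sin θ * (sin α * form (D.a j) θ + cos α * form (D.b j) θ)

lemma g_sq_add (j : ℕ) (α θ : ℝ) : D.g j α θ ^ 2 + D.h j α θ ^ 2 = D.q j θ := by
  have h1 := Real.sin_sq_add_cos_sq α
  have h2 := Real.sin_sq_add_cos_sq θ
  unfold g h q
  set A := form (D.a j) θ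
  set B := form (D.b j) θ
  linear_combination (A ^ 2 + B ^ 2) * (cos θ ^ 2 + sin θ ^ 2) * h1 + (A ^ 2 + B ^ 2) * h2

lemma abs_g_le (j : ℕ) (α θ : ℝ) : |D.g j α θ| ≤ D.m j := by
  refine (Real.abs_le_sqrt ?_).trans (D.sqrt_q_le j θ)
  nlinarith [D.g_sq_add j α θ, sq_nonneg (D.h j α θ)]

lemma abs_h_le (j : ℕ) (α θ : ℝ) : |D.h j α θ| ≤ D.m j := by
  refine (Real.abs_le_sqrt ?_).trans (D.sqrt_q_le j θ)
  nlinarith [D.g_sq_add j α θ, sq_nonneg (D.g j α θ)]

lemma exists_form_g (j : ℕ) (α : ℝ) : ∃ c : Fin (j + 1 + 1) → ℝ, ∀ θ, D.g j α θ = form c θ := by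
  refine ⟨-((Fin.snoc (sin α • D.a j + cos α • D.b j) 0 : Fin (j + 1 + 1) → ℝ)) +
    -((Fin.cons 0 (cos α • D.a j + (-sin α) • D.b j) : Fin (j + 1 + 1) → ℝ)), fun θ => ?_⟩
  rw [form_add]
  have e : ∀ c : Fin (j + 1 + 1) → ℝ, form (-c) θ = -form c θ := fun c => by
    have := form_smul (-1) c θ
    simpa using this
  rw [e, e, form_cos, form_sin, form_add, form_add, form_smul, form_smul, form_smul, form_smul]
  unfold g
  ring

lemma V_eq (α u θ : ℝ) : V (field P Q) p α (pt p u θ) =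
    exp u * ∑ j ∈ Finset.range (n + 1), exp u ^ j * D.g j α θ := by
  unfold V
  rw [D.eq u θ]
  unfold wedge rot pt g
  simp only [Prod.fst_sub, Prod.snd_sub, add_sub_cancel_left, Finset.mul_sum]
  have e : ∀ x y : ℕ → ℝ, (∑ j ∈ Finset.range (n + 1), x j) - ∑ j ∈ Finset.range (n + 1), y j =
      ∑ j ∈ Finset.range (n + 1), (x j - y j) := fun x y => (Finset.sum_sub_distrib x y).symm
  rw [e, ← Finset.sum_add_distrib, Finset.mul_sum, Finset.mul_sum, e]
  exact Finset.sum_congr rfl fun j _ => by ring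

lemma W_eq (α u θ : ℝ) : W (field P Q) p α (pt p u θ) =
    exp u * ∑ j ∈ Finset.range (n + 1), exp u ^ j * D.h j α θ := by
  unfold W
  rw [D.eq u θ]
  unfold H709U.dot rot pt h
  simp only [Prod.fst_sub, Prod.snd_sub, add_sub_cancel_left, Finset.mul_sum]
  have e : ∀ x y : ℕ → ℝ, (∑ j ∈ Finset.range (n + 1), x j) - ∑ j ∈ Finset.range (n + 1), y j =
      ∑ j ∈ Finset.range (n + 1), (x j - y j) := fun x y => (Finset.sum_sub_distrib x y).symm
  rw [e, ← Finset.sum_add_distrib, Finset.mul_sum, Finset.mul_sum, ← Finset.sum_add_distrib]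
  exact Finset.sum_congr rfl fun j _ => by ring

/-- the part of degree `k` dominates all others at the scale `u`, with margin `s` -/
def Dom (s : ℝ) (k : ℕ) (u : ℝ) : Prop :=
  ∀ j ∈ Finset.range (n + 1), j ≠ k → exp u ^ j * D.m j ≤ exp (-s) * (exp u ^ k * D.m k)

/-- the scales at which two parts are of the same size -/
noncomputable def centers : Finset ℝ :=
  ((Finset.range (n + 1)) ×ˢ (Finset.range (n + 1))).image
    fun kl => (log (D.m kl.1) - log (D.m kl.2)) / ((kl.2 : ℝ) - kl.1)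

lemma card_centers : D.centers.card ≤ (n + 1) ^ 2 := by
  refine Finset.card_image_le.trans ?_
  rw [Finset.card_product, Finset.card_range, sq]

/-- between the centers one of the parts dominates -/
theorem exists_dom {s : ℝ} (hs : 0 < s) {I : Set ℝ} (hI : I.OrdConnected) (hne : I.Nonempty)
    (hpos : ∃ k ∈ Finset.range (n + 1), 0 < D.m k)
    (hfar : ∀ u ∈ I, ∀ c ∈ D.centers, s < |u - c|) :
    ∃ k ∈ Finset.range (n + 1), 0 < D.m k ∧ ∀ u ∈ I, D.Dom s k u := by
  classical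
  obtain ⟨u₀, hu₀⟩ := hne
  obtain ⟨k, hk, hmax⟩ := Finset.exists_max_image (Finset.range (n + 1))
    (fun j => exp u₀ ^ j * D.m j) ⟨0, by simp⟩
  have hmk : 0 < D.m k := by
    obtain ⟨k', hk', hk'0⟩ := hpos
    have h1 : 0 < exp u₀ ^ k' * D.m k' := by positivity
    have h2 := h1.trans_le (hmax k' hk')
    exact (pos_iff_pos_of_mul_pos h2).1 (by positivity)
  refine ⟨k, hk, hmk, fun u hu j hj hjk => ?_⟩
  rcases (D.m_nonneg j).eq_or_lt with h0 | h0
  · rw [← h0, mul_zero]
    positivity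
  -- the difference of the logarithms
  set φ : ℝ → ℝ := fun v => (k - j : ℝ) * v + (log (D.m k) - log (D.m j)) with hφ
  have hkj : (1 : ℝ) ≤ |(k - j : ℝ)| := by
    have : ((k : ℤ) - j) ≠ 0 := by
      intro h
      apply hjk
      omega
    have h2 := Int.one_le_abs this
    exact_mod_cast h2
  have hkj0 : (k - j : ℝ) ≠ 0 := by
    intro h
    rw [h] at hkj
    norm_num at hkj
  have hfar' : ∀ v ∈ I, s < |φ v| := by
    intro v hv
    have h1 := hfar v hv ((log (D.m j) - log (D.m k)) / ((k : ℝ) - j))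
      (Finset.mem_image.2 ⟨(j, k), Finset.mem_product.2 ⟨hj, hk⟩, rfl⟩)
    have h2 : φ v = (k - j : ℝ) * (v - (log (D.m j) - log (D.m k)) / ((k : ℝ) - j)) := by
      simp only [hφ]
      field_simp
      ring
    rw [h2, abs_mul]
    nlinarith [abs_nonneg (v - (log (D.m j) - log (D.m k)) / ((k : ℝ) - j))]
  have hlogs : ∀ (v : ℝ) (i : ℕ), 0 < D.m i → exp v ^ i * D.m i = exp (i * v + log (D.m i)) := by
    intro v i hi
    rw [exp_add, exp_log hi, ← exp_nat_mul]
  have h0' : 0 ≤ φ u₀ := by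
    have h1 := hmax j hj
    rw [hlogs u₀ j h0, hlogs u₀ k hmk, exp_le_exp] at h1
    simp only [hφ]
    linarith
  have hsu : s < φ u := by
    by_contra hcon
    have h1 := hfar' u hu
    have h2 : φ u < 0 := by
      rcases lt_abs.1 h1 with h | h
      · exact absurd h hcon
      · linarith
    have hcont : ContinuousOn φ (uIcc u₀ u) := by
      simp only [hφ]
      fun_prop
    have h3 : (0:ℝ) ∈ φ '' uIcc u₀ u := by
      apply intermediate_value_uIcc hcont
      rw [mem_uIcc]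
      exact Or.inr ⟨h2.le, h0'⟩
    obtain ⟨v, hv, hv0⟩ := h3
    have h4 := hfar' v (hI.uIcc_subset hu₀ hu hv)
    rw [hv0, abs_zero] at h4
    linarith
  rw [hlogs u j h0, hlogs u k hmk, ← exp_add, exp_le_exp]
  simp only [hφ] at hsu
  linarith

/-- the angular component is nearly that of the dominating part -/
lemma V_near {s : ℝ} {k : ℕ} (hk : k ∈ Finset.range (n + 1)) {u : ℝ} (hd : D.Dom s k u)
    (α θ : ℝ) : |V (field P Q) p α (pt p u θ) - exp u * exp u ^ k * D.g k α θ| ≤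
      exp u * exp u ^ k * (n * exp (-s) * D.m k) := by
  classical
  rw [D.V_eq, ← Finset.add_sum_erase _ _ hk]
  have e : exp u * (exp u ^ k * D.g k α θ + ∑ j ∈ (Finset.range (n + 1)).erase k,
      exp u ^ j * D.g j α θ) - exp u * exp u ^ k * D.g k α θ =
      exp u * ∑ j ∈ (Finset.range (n + 1)).erase k, exp u ^ j * D.g j α θ := by ring
  rw [e, abs_mul, abs_of_pos (exp_pos u), mul_assoc]
  refine mul_le_mul_of_nonneg_left ?_ (exp_pos u).le
  refine (Finset.abs_sum_le_sum_abs _ _).trans ?_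
  have h1 : ∀ j ∈ (Finset.range (n + 1)).erase k, |exp u ^ j * D.g j α θ| ≤
      exp (-s) * (exp u ^ k * D.m k) := by
    intro j hj
    rw [abs_mul, abs_of_pos (by positivity : 0 < exp u ^ j)]
    exact (mul_le_mul_of_nonneg_left (D.abs_g_le j α θ) (by positivity)).trans
      (hd j (Finset.mem_of_mem_erase hj) (Finset.ne_of_mem_erase hj))
  refine (Finset.sum_le_sum h1).trans (le_of_eq ?_)
  rw [Finset.sum_const, Finset.card_erase_of_mem hk, Finset.card_range, nsmul_eq_mul]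
  simp only [Nat.add_sub_cancel]
  ring

lemma W_near {s : ℝ} {k : ℕ} (hk : k ∈ Finset.range (n + 1)) {u : ℝ} (hd : D.Dom s k u)
    (α θ : ℝ) : |W (field P Q) p α (pt p u θ) - exp u * exp u ^ k * D.h k α θ| ≤
      exp u * exp u ^ k * (n * exp (-s) * D.m k) := by
  classical
  rw [D.W_eq, ← Finset.add_sum_erase _ _ hk]
  have e : exp u * (exp u ^ k * D.h k α θ + ∑ j ∈ (Finset.range (n + 1)).erase k,
      exp u ^ j * D.h j α θ) - exp u * exp u ^ k * D.h k α θ =
      exp u * ∑ j ∈ (Finset.range (n + 1)).erase k, exp u ^ j * D.h j α θ := by ring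
  rw [e, abs_mul, abs_of_pos (exp_pos u), mul_assoc]
  refine mul_le_mul_of_nonneg_left ?_ (exp_pos u).le
  refine (Finset.abs_sum_le_sum_abs _ _).trans ?_
  have h1 : ∀ j ∈ (Finset.range (n + 1)).erase k, |exp u ^ j * D.h j α θ| ≤
      exp (-s) * (exp u ^ k * D.m k) := by
    intro j hj
    rw [abs_mul, abs_of_pos (by positivity : 0 < exp u ^ j)]
    exact (mul_le_mul_of_nonneg_left (D.abs_h_le j α θ) (by positivity)).trans
      (hd j (Finset.mem_of_mem_erase hj) (Finset.ne_of_mem_erase hj))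
  refine (Finset.sum_le_sum h1).trans (le_of_eq ?_)
  rw [Finset.sum_const, Finset.card_erase_of_mem hk, Finset.card_range, nsmul_eq_mul]
  simp only [Nat.add_sub_cancel]
  ring

end Parts

end Pool.Agent.W960.HQ
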