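import Pool.Agent.W960.HQ.Avoid

/-! The key lemma with windows of logarithmic width. -/

open Real Set MeasureTheory Topology Filter
open scoped ENNReal

namespace Pool.Agent.W960.HQ

open Pool.Agent.H709R2 (rot wedge field ClosedOrbit)
open Pool.Agent.H709U

/-- smallness parameter -/
noncomputable def yy (n : ℕ) (δ : ℝ) : ℝ := δ ^ 2 / (600 * (n + 1))

/-- the margin of domination -/
noncomputable def sn (n : ℕ) (δ : ℝ) : ℝ := (n + 2) * log (1 / yy n δ)

/-- the half-width of the windows -/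
noncomputable def Lw (n : ℕ) (δ : ℝ) : ℝ := L0 n δ + sn n δ + 1

lemma yy_pos {n : ℕ} {δ : ℝ} (hδ : 0 < δ) : 0 < yy n δ := by unfold yy; positivity

lemma yy_le {n : ℕ} {δ : ℝ} (hδ : 0 < δ) (hδ1 : δ ≤ 1) : yy n δ ≤ δ / (600 * (n + 1)) := by
  unfold yy
  have : δ ^ 2 ≤ δ := by nlinarith
  gcongr

lemma yy_lt_one {n : ℕ} {δ : ℝ} (hδ : 0 < δ) (hδ1 : δ ≤ 1) : yy n δ ≤ 1 / 600 := by
  refine (yy_le hδ hδ1).trans ?_
  rw [div_le_div_iff₀ (by positivity) (by norm_num)]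
  have : (0:ℝ) ≤ n := Nat.cast_nonneg n
  nlinarith

lemma sn_pos {n : ℕ} {δ : ℝ} (hδ : 0 < δ) (hδ1 : δ ≤ 1) : 0 < sn n δ := by
  unfold sn
  have h1 := yy_pos (n := n) hδ
  have h2 := yy_lt_one (n := n) hδ hδ1
  have h3 : 0 < log (1 / yy n δ) := Real.log_pos (by
    rw [lt_div_iff₀ h1]
    linarith)
  positivity

lemma exp_sn {n : ℕ} {δ : ℝ} (hδ : 0 < δ) : exp (-sn n δ) = yy n δ ^ (n + 2) := by
  have h1 := yy_pos (n := n) hδ
  unfold sn
  rw [one_div, Real.log_inv]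
  have : -(((n : ℝ) + 2) * -log (yy n δ)) = ((n + 2 : ℕ) : ℝ) * log (yy n δ) := by
    push_cast
    ring
  rw [this, exp_nat_mul, exp_log h1]

namespace Parts

variable {n : ℕ} {P Q : MvPolynomial (Fin 2) ℝ} {p : ℝ × ℝ} (D : Parts n P Q p)

lemma g_rot (k : ℕ) (α θ : ℝ) : D.g k α θ = cos α * D.g k 0 θ + sin α * D.h k 0 θ := by
  unfold g h
  rw [cos_zero, sin_zero]
  ring

/-- away from one exceptional direction the angular component of a part is large somewhere -/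
lemma exists_exc (k : ℕ) : ∃ a : ℂ, ∀ (δ α : ℝ), δ ≤ ‖ee α - a‖ →
    D.m k * δ / 2 ≤ |D.g k α (D.tm k)| := by
  rcases (D.m_nonneg k).eq_or_lt with h0 | h0
  · refine ⟨0, fun δ α _ => ?_⟩
    rw [← h0]
    simp
  have hsq : D.g k 0 (D.tm k) ^ 2 + D.h k 0 (D.tm k) ^ 2 = D.m k ^ 2 := by
    rw [D.g_sq_add, D.m_sq]
  set G := D.g k 0 (D.tm k) with hG
  set H := D.h k 0 (D.tm k) with hH
  obtain ⟨ω, hω1, hω2⟩ : ∃ ω : ℝ, G = D.m k * sin ω ∧ H = D.m k * cos ω := by
    set z : ℂ := ⟨H, G⟩ with hz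
    have hn : ‖z‖ = D.m k := by
      rw [← Real.sqrt_sq h0.le, ← hsq, Complex.norm_def, Complex.normSq_mk]
      congr 1
      ring
    refine ⟨Complex.arg z, ?_, ?_⟩
    · have := Complex.norm_mul_sin_arg z
      rw [hn] at this
      exact this.symm
    · have := Complex.norm_mul_cos_arg z
      rw [hn] at this
      exact this.symm
  refine ⟨ee (-ω), fun δ α hα => ?_⟩
  rw [e2b_norm] at hα
  have h1 : D.g k α (D.tm k) = D.m k * sin (α - -ω) := by
    rw [D.g_rot, ← hG, ← hH, hω1, hω2, sub_neg_eq_add, sin_add]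
    ring
  rw [h1, abs_mul, abs_of_pos h0]
  nlinarith

/-- the exceptional directions of the parts -/
noncomputable def exc (k : ℕ) : ℂ := (D.exists_exc k).choose

lemma exc_spec (k : ℕ) {δ α : ℝ} (h : δ ≤ ‖ee α - D.exc k‖) :
    D.m k * δ / 2 ≤ |D.g k α (D.tm k)| := (D.exists_exc k).choose_spec δ α h

/-- the dominating part of the angular component cannot be small on an interval of angles -/
lemma not_small {k : ℕ} (hk : k ∈ Finset.range (n + 1)) (hm : 0 < D.m k) {δ : ℝ} (hδ : 0 < δ)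
    (hδ1 : δ ≤ 1) {α : ℝ} (hα : δ ≤ ‖ee α - D.exc k‖) {ρ : ℝ} (hρ : δ / 4 ≤ ρ) (hρ1 : ρ ≤ 1)
    (t₁ : ℝ) : ¬ ∀ t ∈ Icc t₁ (t₁ + ρ), |D.g k α t| ≤ n * exp (-sn n δ) * D.m k := by
  intro hsmall
  obtain ⟨c, hc⟩ := D.exists_form_g k α
  have hbig := D.exc_spec k hα
  have hbig0 : 0 < |D.g k α (D.tm k)| := lt_of_lt_of_le (by positivity) hbig
  have hc0 : c ≠ 0 := by
    rintro rfl
    rw [hc] at hbig0
    simp [form] at hbig0
  obtain ⟨R, hR, M, hM, hle, hlow⟩ := e2 (k + 1) c hc0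
  have hkn : (k : ℝ) + 1 ≤ n + 1 := by
    have := Finset.mem_range.1 hk
    have h2 : k ≤ n := by omega
    have h3 : (k : ℝ) ≤ n := by exact_mod_cast h2
    linarith
  have hn0 : (0:ℝ) ≤ n := Nat.cast_nonneg n
  set d : ℝ := ρ / (20 * (n + 2)) with hd
  have hρ0 : 0 < ρ := by linarith
  have hd0 : 0 < d := by positivity
  have hd1 : d ≤ 1 := by
    rw [hd, div_le_one (by positivity)]
    nlinarith
  have hRc : (R.card : ℝ) ≤ n + 1 := by
    have : (R.card : ℝ) ≤ ((k + 1 : ℕ) : ℝ) := by exact_mod_cast hR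
    push_cast at this
    linarith
  obtain ⟨t, ht, hav⟩ := exists_avoid (ρ := ρ) R hd0 (by linarith [Real.pi_gt_three]) (by
    have h1 : (R.card : ℝ) * (10 * d) ≤ (n + 1) * (10 * d) :=
      mul_le_mul_of_nonneg_right hRc (by positivity)
    have h2 : ((n : ℝ) + 1) * (10 * d) < ρ := by
      rw [hd]
      have : ((n : ℝ) + 1) * (10 * (ρ / (20 * (n + 2)))) = ρ * ((n + 1) / (2 * (n + 2))) := by
        field_simp
        ring
      rw [this]
      have h3 : ((n : ℝ) + 1) / (2 * (n + 2)) < 1 := by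
        rw [div_lt_one (by positivity)]
        linarith
      nlinarith
    linarith) t₁
  have h1 := hlow d hd0 hd1 t hav
  rw [← hc] at h1
  have h2 := hsmall t (Ioo_subset_Icc_self ht)
  have h3 := hle (D.tm k)
  rw [← hc] at h3
  have hM2 : D.m k * δ / 2 ≤ M := hbig.trans h3
  -- the numbers
  have hy0 := yy_pos (n := n) hδ
  have hdy : yy n δ ≤ d / 3 := by
    refine (yy_le hδ hδ1).trans ?_
    rw [hd, div_div, div_le_div_iff₀ (by positivity) (by positivity)]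
    nlinarith
  have hd31 : d / 3 ≤ 1 := by linarith
  have h4 : yy n δ ^ (n + 1) ≤ (d / 3) ^ (k + 1) := by
    have hkn' : k + 1 ≤ n + 1 := by
      have := Finset.mem_range.1 hk
      omega
    calc yy n δ ^ (n + 1) ≤ (d / 3) ^ (n + 1) := pow_le_pow_left₀ hy0.le hdy _
      _ ≤ (d / 3) ^ (k + 1) := pow_le_pow_of_le_one (by positivity) hd31 hkn'
  have h5 : yy n δ ^ (n + 1) * (D.m k * δ / 2) ≤ (d / 3) ^ (k + 1) * M :=
    mul_le_mul h4 hM2 (by positivity) (by positivity)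
  have h6 : yy n δ ^ (n + 1) * (D.m k * δ / 2) ≤ n * exp (-sn n δ) * D.m k :=
    h5.trans (h1.trans h2)
  rw [exp_sn hδ, pow_succ (yy n δ) (n + 1)] at h6
  have h7 : (n : ℝ) * yy n δ < δ / 2 := by
    have h8 : (n : ℝ) * yy n δ ≤ n * (δ / (600 * (n + 1))) :=
      mul_le_mul_of_nonneg_left (yy_le hδ hδ1) hn0
    have h9 : (n : ℝ) * (δ / (600 * (n + 1))) < δ / 2 := by
      have : (n : ℝ) * (δ / (600 * (n + 1))) = δ * (n / (600 * (n + 1))) := by
        field_simp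
      rw [this]
      have h10 : (n : ℝ) / (600 * (n + 1)) < 1 / 2 := by
        rw [div_lt_div_iff₀ (by positivity) (by norm_num)]
        linarith
      nlinarith
    linarith
  have h8 : 0 < yy n δ ^ (n + 1) * D.m k := by positivity
  nlinarith

end Parts

end Pool.Agent.W960.HQ
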