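import Pool.Agent.W960.HQ.Comp
import Pool.Agent.W960.HQ.Key
import Pool.Agent.H709U.Top

/-! The count of closed orbits of rotated fields off a small set of angles: coprime components. -/

open Real Set MeasureTheory Topology Filter
open scoped ENNReal

namespace Pool.Agent.W960.HQ

noncomputable section

open Pool.Agent.H709R2 (rot wedge field ClosedOrbit)
open Pool.Agent.H709U Pool.Agent.H709U.Z1aux
open Pool.Agent.H709Q (Maj)

variable {n : ℕ} {P Q : MvPolynomial (Fin 2) ℝ} {p : ℝ × ℝ}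

/-- the angles with a star-shaped closed orbit in a zone of dominance -/
def zoneSet (D : Parts n P Q p) (δ : ℝ) (k : ℕ) (σ : ℝ) : Set ℝ :=
  {α | α ∈ Ioo 0 π ∧ ∃ C, ClosedOrbit (rf (field P Q) α) C ∧
    (∀ z ∈ C, (δ / 2) ^ 2 * W (field P Q) p α z ^ 2 < V (field P Q) p α z ^ 2) ∧
    (∀ z ∈ C, D.Dom (sn n δ) k (lg p z)) ∧ ∀ z ∈ C, 0 < σ * V (field P Q) p α z}

/-- there are few such angles -/
lemma volume_zoneSet (D : Parts n P Q p) {k : ℕ} (hk : k ∈ Finset.range (n + 1))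
    (hm : 0 < D.m k) {δ : ℝ} (hδ : 0 < δ) (hδ1 : δ ≤ 1) (σ : ℝ) :
    volume (zoneSet D δ k σ) ≤ ENNReal.ofReal (4 * δ) := by
  rcases (zoneSet D δ k σ).eq_empty_or_nonempty with h0 | ⟨a, ha⟩
  · rw [h0]; simp
  have hsub : zoneSet D δ k σ ⊆ Ioo (a - δ) (a + δ) ∪ (Ioo (a + π - δ) π ∪ Ioo 0 (a - π + δ)) := by
    intro α hα
    obtain ⟨haI, C₁, hC₁, hs₁, hd₁, hv₁⟩ := ha
    obtain ⟨hαI, C₂, hC₂, hs₂, hd₂, hv₂⟩ := hα
    by_contra hcon
    simp only [mem_union, mem_Ioo, not_or, not_and_or, not_lt] at hcon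
    obtain ⟨h1, h2, h3⟩ := hcon
    obtain ⟨hα0, hα1⟩ := hαI
    obtain ⟨ha0, ha1⟩ := haI
    rcases le_total a α with h | h
    · refine compare D hk hm hδ hδ1 (α₁ := a) (α₂ := α) ?_ ?_ hC₁ hC₂ hd₁ hd₂ hs₁ hs₂ hv₁ hv₂
      · rcases h1 with h1 | h1 <;> linarith
      · rcases h2 with h2 | h2 <;> linarith
    · refine compare D hk hm hδ hδ1 (α₁ := α) (α₂ := a) ?_ ?_ hC₂ hC₁ hd₂ hd₁ hs₂ hs₁ hv₂ hv₁
      · rcases h1 with h1 | h1 <;> linarith
      · rcases h3 with h3 | h3 <;> linarith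
  refine (measure_mono hsub).trans ((measure_union_le _ _).trans
    ((add_le_add le_rfl (measure_union_le _ _)).trans ?_))
  rw [Real.volume_Ioo, Real.volume_Ioo, Real.volume_Ioo]
  obtain ⟨ha0, ha1⟩ := ha.1
  have e1 : ENNReal.ofReal (π - (a + π - δ)) ≤ ENNReal.ofReal δ :=
    ENNReal.ofReal_le_ofReal (by linarith)
  have e2 : ENNReal.ofReal (a - π + δ - 0) ≤ ENNReal.ofReal δ :=
    ENNReal.ofReal_le_ofReal (by linarith)
  refine (add_le_add le_rfl (add_le_add e1 e2)).trans ?_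
  rw [← ENNReal.ofReal_add hδ.le hδ.le, ← ENNReal.ofReal_add (by linarith) (by linarith)]
  exact ENNReal.ofReal_le_ofReal (by linarith)

/-- a nonvanishing angular component has a sign on a closed orbit -/
lemma exists_sign {α : ℝ} {C : Set (ℝ × ℝ)} (hC : ClosedOrbit (rf (field P Q) α) C)
    (hV : ∀ z ∈ C, V (field P Q) p α z ≠ 0) :
    ∃ σ ∈ ({1, -1} : Finset ℝ), ∀ z ∈ C, 0 < σ * V (field P Q) p α z := by
  have hX2 : ContDiff ℝ 2 (field P Q) := H709R2.contDiff_field P Q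
  obtain ⟨γ, T, hO, hr⟩ := m0 (field P Q) hX2 α C hC
  have hγ : Continuous γ := continuous_iff_continuousAt.mpr fun t => (hO.ode t).continuousAt
  have hVc : Continuous fun t => V (field P Q) p α (γ t) :=
    (continuous_VW hX2.continuous p α).1.comp hγ
  have hVt : ∀ t, V (field P Q) p α (γ t) ≠ 0 := fun t => hV _ (by rw [hr]; exact ⟨t, rfl⟩)
  have hI : (range fun t => V (field P Q) p α (γ t)).OrdConnected :=
    (isPreconnected_range hVc).ordConnected
  rcases lt_or_gt_of_ne (hVt 0) with h0 | h0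
  · refine ⟨-1, by simp, fun z hz => ?_⟩
    rw [hr] at hz
    obtain ⟨t, rfl⟩ := hz
    by_contra hcon
    have h1 : 0 ≤ V (field P Q) p α (γ t) := by linarith
    obtain ⟨s, hs⟩ := hI.out ⟨0, rfl⟩ ⟨t, rfl⟩ ⟨h0.le, h1⟩
    exact hVt s hs
  · refine ⟨1, by simp, fun z hz => ?_⟩
    rw [hr] at hz
    obtain ⟨t, rfl⟩ := hz
    by_contra hcon
    have h1 : V (field P Q) p α (γ t) ≤ 0 := by linarith
    obtain ⟨s, hs⟩ := hI.out ⟨t, rfl⟩ ⟨0, rfl⟩ ⟨h1, h0.le⟩
    exact hVt s hs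

/-- some homogeneous part does not vanish -/
lemma exists_pos (D : Parts n P Q p) {Z : Finset (ℝ × ℝ)}
    (hZ : ∀ z, field P Q z = 0 → z ∈ Z) : ∃ k ∈ Finset.range (n + 1), 0 < D.m k := by
  by_contra hcon
  push Not at hcon
  have hm0 : ∀ k ∈ Finset.range (n + 1), D.m k = 0 := fun k hk =>
    le_antisymm (hcon k hk) (D.m_nonneg k)
  have hVW : ∀ u θ : ℝ, V (field P Q) p 0 (pt p u θ) = 0 ∧ W (field P Q) p 0 (pt p u θ) = 0 := by
    intro u θ
    have hg : ∀ j ∈ Finset.range (n + 1), D.g j 0 θ = 0 := fun j hj => by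
      have := D.abs_g_le j 0 θ
      rw [hm0 j hj] at this
      exact abs_nonpos_iff.1 this
    have hh : ∀ j ∈ Finset.range (n + 1), D.h j 0 θ = 0 := fun j hj => by
      have := D.abs_h_le j 0 θ
      rw [hm0 j hj] at this
      exact abs_nonpos_iff.1 this
    constructor
    · rw [D.V_eq]
      rw [Finset.sum_eq_zero fun j hj => by rw [hg j hj, mul_zero]]
      simp
    · rw [D.W_eq]
      rw [Finset.sum_eq_zero fun j hj => by rw [hh j hj, mul_zero]]
      simp
  have hzero : ∀ u : ℝ, field P Q (pt p u 0) = 0 := by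
    intro u
    obtain ⟨h1, h2⟩ := hVW u 0
    have h3 := VW_sq (field P Q) p 0 (pt p u 0)
    rw [h1, h2] at h3
    have h4 : pt p u 0 - p ≠ 0 := by
      intro h
      have h5 := congrArg Prod.fst h
      simp only [pt, cos_zero, mul_one, Prod.fst_sub, Prod.fst_zero] at h5
      have := exp_pos u
      linarith
    by_contra h6
    have h7 := mul_pos (H709R2.sq_pos h4) (H709R2.sq_pos h6)
    rw [← h3] at h7
    simp at h7
  have hinj : Function.Injective fun u : ℝ => pt p u 0 := by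
    intro u v h
    have h5 := congrArg Prod.fst h
    simp only [pt, cos_zero, mul_one] at h5
    exact exp_injective (by linarith)
  exact (Set.infinite_range_of_injective hinj) ((Z.finite_toSet).subset (by
    rintro _ ⟨u, rfl⟩
    exact hZ _ (hzero u)))

/-- the theorem for coprime components -/
theorem zq {n : ℕ} {P Q : MvPolynomial (Fin 2) ℝ} (hP : P.totalDegree ≤ n)
    (hQ : Q.totalDegree ≤ n) (hPQ : IsRelPrime P Q) {δ : ℝ} (hδ : 0 < δ) (hδ1 : δ ≤ 1) :
    ∃ B : Set ℝ, volume B ≤ ENNReal.ofReal (n ^ 2 * (((nM n + 1) * nN n + (n + 1)) * (20 * δ) +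
        (n + 1) * (8 * δ))) ∧
      Maj (fun α => indicator Bᶜ (fun α => ((Cl P Q α).encard : ℝ≥0∞)) α)
        (n ^ 2 * (((nM n + 1) ^ 2 + n ^ 2 + (n + 1) ^ 2) * (2 * Lw n δ + 2) *
          (8000 * (n + 1)))) := by
  classical
  obtain ⟨Z, hZc, hZ⟩ := b3 n P Q hP hQ hPQ
  have hcd : ContDiff ℝ 2 (field P Q) := H709R2.contDiff_field P Q
  let D : ∀ p, Parts n P Q p := fun p => (exists_parts hP hQ p).some
  choose R S hR hS hK using fun p => key hP hQ (fun z hz => (hZ z).1 hz) (D p)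
    (exists_pos (D p) fun z hz => (hZ z).1 hz) hδ hδ1
  set Λ : ℝ := Lw n δ with hΛ
  have hL0 := Z1aux.L0_nonneg n δ hδ hδ1
  have hsn := sn_pos (n := n) hδ hδ1
  have hΛ0 : 0 ≤ Λ := by
    rw [hΛ]
    unfold Lw
    linarith
  set Jn : ℕ := ⌊2 * Λ⌋₊ with hJn
  have hJ : ((Jn + 1 : ℕ) : ℝ) ≤ 2 * Λ + 2 := by
    have := Nat.floor_le (by linarith : (0:ℝ) ≤ 2 * Λ)
    push_cast
    linarith
  have hn0 : (0 : ℝ) ≤ n := Nat.cast_nonneg n
  have hZc' : (Z.card : ℝ) ≤ (n : ℝ) ^ 2 := by exact_mod_cast hZc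
  set K0 : Finset ℕ := (Finset.range (n + 1)) with hK0
  set B₁ : Set ℝ := ⋃ p ∈ Z, ⋃ r ∈ R p, {α | α ∈ Ioo 0 π ∧ ‖ee α - r‖ < 2 * δ} with hB₁
  set B₂ : Set ℝ := ⋃ p ∈ Z, ⋃ k ∈ K0.filter (fun k => 0 < (D p).m k),
    ⋃ σ ∈ ({1, -1} : Finset ℝ), zoneSet (D p) δ k σ with hB₂
  refine ⟨B₁ ∪ B₂, ?_, ?_⟩
  · -- measure of the exceptional set
    have hv1 : volume B₁ ≤ ENNReal.ofReal (n ^ 2 * (((nM n + 1) * nN n + (n + 1)) * (20 * δ))) := by
      refine (measure_biUnion_finset_le _ _).trans ?_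
      have h1 : ∀ p ∈ Z, volume (⋃ r ∈ R p, {α | α ∈ Ioo 0 π ∧ ‖ee α - r‖ < 2 * δ}) ≤
          ENNReal.ofReal (((nM n + 1) * nN n + (n + 1) : ℝ) * (20 * δ)) := by
        intro p _
        refine (measure_biUnion_finset_le _ _).trans ?_
        refine (Finset.sum_le_sum fun r _ => e2b r δ hδ).trans ?_
        rw [Finset.sum_const, nsmul_eq_mul, ← ENNReal.ofReal_natCast, ← ENNReal.ofReal_mul
          (Nat.cast_nonneg _)]
        apply ENNReal.ofReal_le_ofReal
        have h2 : ((R p).card : ℝ) ≤ (nM n + 1) * nN n + (n + 1) := by exact_mod_cast hR p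
        have h3 : (0:ℝ) ≤ 20 * δ := by positivity
        exact mul_le_mul_of_nonneg_right h2 h3
      refine (Finset.sum_le_sum h1).trans ?_
      rw [Finset.sum_const, nsmul_eq_mul, ← ENNReal.ofReal_natCast, ← ENNReal.ofReal_mul
          (Nat.cast_nonneg _)]
      apply ENNReal.ofReal_le_ofReal
      exact mul_le_mul_of_nonneg_right hZc' (by positivity)
    have hv2 : volume B₂ ≤ ENNReal.ofReal (n ^ 2 * ((n + 1) * (8 * δ))) := by
      refine (measure_biUnion_finset_le _ _).trans ?_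
      have h1 : ∀ p ∈ Z, volume (⋃ k ∈ K0.filter (fun k => 0 < (D p).m k),
          ⋃ σ ∈ ({1, -1} : Finset ℝ), zoneSet (D p) δ k σ) ≤
          ENNReal.ofReal ((n + 1) * (8 * δ)) := by
        intro p _
        refine (measure_biUnion_finset_le _ _).trans ?_
        have h2 : ∀ k ∈ K0.filter (fun k => 0 < (D p).m k),
            volume (⋃ σ ∈ ({1, -1} : Finset ℝ), zoneSet (D p) δ k σ) ≤
            ENNReal.ofReal (8 * δ) := by
          intro k hk
          rw [Finset.mem_filter] at hk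
          refine (measure_biUnion_finset_le _ _).trans ?_
          refine (Finset.sum_le_sum fun σ _ => volume_zoneSet (D p) hk.1 hk.2 hδ hδ1 σ).trans ?_
          rw [Finset.sum_const, nsmul_eq_mul, ← ENNReal.ofReal_natCast, ← ENNReal.ofReal_mul
            (Nat.cast_nonneg _)]
          apply ENNReal.ofReal_le_ofReal
          have h3 : ((({1, -1} : Finset ℝ).card : ℕ) : ℝ) ≤ 2 := by
            exact_mod_cast Finset.card_le_two
          nlinarith
        refine (Finset.sum_le_sum h2).trans ?_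
        rw [Finset.sum_const, nsmul_eq_mul, ← ENNReal.ofReal_natCast, ← ENNReal.ofReal_mul
            (Nat.cast_nonneg _)]
        apply ENNReal.ofReal_le_ofReal
        have h4 : ((K0.filter (fun k => 0 < (D p).m k)).card : ℝ) ≤ n + 1 := by
          have := Finset.card_filter_le K0 (fun k => 0 < (D p).m k)
          rw [hK0, Finset.card_range] at this
          exact_mod_cast this
        exact mul_le_mul_of_nonneg_right h4 (by positivity)
      refine (Finset.sum_le_sum h1).trans ?_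
      rw [Finset.sum_const, nsmul_eq_mul, ← ENNReal.ofReal_natCast, ← ENNReal.ofReal_mul
          (Nat.cast_nonneg _)]
      apply ENNReal.ofReal_le_ofReal
      exact mul_le_mul_of_nonneg_right hZc' (by positivity)
    refine (measure_union_le _ _).trans ((add_le_add hv1 hv2).trans ?_)
    rw [← ENNReal.ofReal_add (by positivity) (by positivity)]
    apply ENNReal.ofReal_le_ofReal
    apply le_of_eq
    ring
  · -- the majorant
    set HS : (ℝ × ℝ) → ℝ → ℝ → Set (Set (ℝ × ℝ)) := fun p v α => {C | C ∈ Cl P Q α ∧ InBox p C ∧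
      p ∉ C ∧ ∃ z ∈ C, v ≤ lg p z ∧ lg p z ≤ v + 1} with hHS
    have hcover : ∀ α ∈ Ioo 0 π, α ∉ B₁ ∪ B₂ →
        Cl P Q α ⊆ ⋃ p ∈ Z, ⋃ c ∈ S p, ⋃ j ∈ Finset.range (Jn + 1),
          HS p (c - Λ + j) α := by
      intro α hα hnB C hC
      rw [mem_union, not_or] at hnB
      obtain ⟨hnB1, hnB2⟩ := hnB
      obtain ⟨p, hp0, hbox⟩ := t3' (field P Q) hcd α C hC
      have hpZ : p ∈ Z := (hZ p).1 hp0
      have hpC : p ∉ C := by
        intro hpC
        obtain ⟨γ, T, hO, hCr⟩ := m0 (field P Q) hcd α C hC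
        rw [hCr] at hpC
        obtain ⟨t, ht⟩ := hpC
        apply hO.ne t
        rw [ht, rf, hp0, rot_zero']
      simp only [mem_iUnion]
      refine ⟨p, hpZ, ?_⟩
      by_cases hcase : ∀ z ∈ C, ∀ c ∈ S p, Λ < |lg p z - c|
      · exfalso
        obtain ⟨hstar, k, hk, hmk, hdom⟩ := hK p α (by
          intro a ha
          by_contra hlt
          push Not at hlt
          apply hnB1
          simp only [hB₁, mem_iUnion]
          exact ⟨p, hpZ, a, ha, hα, hlt⟩) C hC hpC hcase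
        obtain ⟨σ, hσ, hsg⟩ := exists_sign hC (p := p) fun z hz h0 => by
          have := hstar z hz
          rw [h0] at this
          nlinarith [sq_nonneg (δ / 2 * W (field P Q) p α z)]
        apply hnB2
        simp only [hB₂, mem_iUnion]
        exact ⟨p, hpZ, k, Finset.mem_filter.2 ⟨hk, hmk⟩, σ, hσ, hα, C, hC, hstar, hdom, hsg⟩
      · push Not at hcase
        obtain ⟨z, hz, c, hc, hle⟩ := hcase
        have h1 := (abs_le.1 hle).1
        have h2 := (abs_le.1 hle).2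
        have ht0 : 0 ≤ lg p z - (c - Λ) := by linarith
        have ht1 : lg p z - (c - Λ) ≤ 2 * Λ := by linarith
        refine ⟨c, hc, ⌊lg p z - (c - Λ)⌋₊, ?_, hC, hbox, hpC, z, hz, ?_, ?_⟩
        · rw [Finset.mem_range, Nat.lt_succ_iff]
          exact Nat.floor_le_floor ht1
        · have := Nat.floor_le ht0
          linarith
        · have := Nat.lt_floor_add_one (lg p z - (c - Λ))
          linarith
    have hle : ∀ α ∈ Ioo 0 π, indicator (B₁ ∪ B₂)ᶜ
        (fun α => ((Cl P Q α).encard : ℝ≥0∞)) α ≤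
        ∑ p ∈ Z, ∑ c ∈ S p, ∑ j ∈ Finset.range (Jn + 1),
          ((HS p (c - Λ + j) α).encard : ℝ≥0∞) := by
      intro α hα
      by_cases hB : α ∈ B₁ ∪ B₂
      · rw [indicator_of_notMem]
        · exact zero_le
        · intro h
          exact h hB
      · refine (indicator_le_self' (fun _ _ => zero_le) α).trans ?_
        refine (encard_mono' (hcover α hα hB)).trans ?_
        refine (encard_biUnion _ _).trans ?_
        refine Finset.sum_le_sum fun p _ => ?_
        refine (encard_biUnion _ _).trans ?_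
        exact Finset.sum_le_sum fun c _ => encard_biUnion _ _
    have hHM : ∀ p v, Maj (fun α => ((HS p v α).encard : ℝ≥0∞)) (8000 * (n + 1)) :=
      fun p v => h4' n P Q hP hQ p v
    have h8 : (0 : ℝ) ≤ 8000 * (n + 1) := by positivity
    have hMp : ∀ p ∈ Z, Maj (fun α => ∑ c ∈ S p,
        ∑ j ∈ Finset.range (Jn + 1), ((HS p (c - Λ + j) α).encard : ℝ≥0∞))
        (∑ c ∈ S p, ∑ j ∈ Finset.range (Jn + 1), (8000 * ((n : ℝ) + 1))) := by
      intro p _
      refine maj_sum _ _ _ (fun _ _ => Finset.sum_nonneg fun _ _ => h8) fun c _ => ?_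
      exact maj_sum _ _ _ (fun _ _ => h8) fun j _ => hHM p _
    have hMs := maj_sum Z _ _ (fun p _ =>
      (Finset.sum_nonneg fun _ _ => Finset.sum_nonneg fun _ _ => h8)) hMp
    refine Z1aux.maj_mono hle ?_ hMs
    -- arithmetic
    have hb : ∀ p ∈ Z, ∑ c ∈ S p, ∑ j ∈ Finset.range (Jn + 1),
          (8000 * ((n : ℝ) + 1)) ≤
        (((nM n : ℝ) + 1) ^ 2 + n ^ 2 + (n + 1) ^ 2) * (2 * Λ + 2) * (8000 * (n + 1)) := by
      intro p _
      rw [Finset.sum_const, Finset.sum_const, Finset.card_range, nsmul_eq_mul, nsmul_eq_mul]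
      have h1 : ((S p).card : ℝ) ≤ ((nM n : ℝ) + 1) ^ 2 + n ^ 2 + (n + 1) ^ 2 := by
        have h2 : ((S p).card : ℝ) ≤ ((nM n + 1) ^ 2 + Z.card + (n + 1) ^ 2 : ℕ) := by
          exact_mod_cast hS p
        push_cast at h2
        linarith
      have h3 : (0 : ℝ) ≤ ((Jn + 1 : ℕ) : ℝ) := Nat.cast_nonneg _
      have h4 : ((S p).card : ℝ) * ((Jn + 1 : ℕ) : ℝ) ≤
          (((nM n : ℝ) + 1) ^ 2 + n ^ 2 + (n + 1) ^ 2) * (2 * Λ + 2) :=
        mul_le_mul h1 hJ h3 (by positivity)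
      have h5 := mul_le_mul_of_nonneg_right h4 h8
      linarith
    refine (Finset.sum_le_sum hb).trans ?_
    rw [Finset.sum_const, nsmul_eq_mul]
    refine mul_le_mul_of_nonneg_right hZc' ?_
    have : (0:ℝ) ≤ 2 * Λ + 2 := by linarith
    positivity

end

end Pool.Agent.W960.HQ
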